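import Pool.Agent.N795.BV.Stm2

/-!
Project BV, part POW (helper221): sums of squares of zeros and of critical points.
-/

set_option autoImplicit false

open Polynomial

namespace Pool.Agent.N795.BV

namespace N221Pow

/-- the three leading coefficients of a product of linear factors -/
theorem expand {ι : Type} (s : Finset ι) (z : ι → ℂ) : ∃ R : ℂ[X],
    (∀ j, s.card ≤ j → R.coeff j = 0) ∧ X ^ 2 * ∏ k ∈ s, (X - C (z k)) =
      X ^ s.card * (X ^ 2 - C (∑ k ∈ s, z k) * X +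
        C (((∑ k ∈ s, z k) ^ 2 - ∑ k ∈ s, z k ^ 2) / 2)) + R := by
  classical
  induction s using Finset.induction_on with
  | empty => exact ⟨0, fun j _ => coeff_zero j, by simp⟩
  | insert a s ha ih =>
    obtain ⟨R, hR, h⟩ := ih
    set p := ∑ k ∈ s, z k
    set r := ∑ k ∈ s, z k ^ 2
    refine ⟨C (-(z a * ((p ^ 2 - r) / 2))) * X ^ s.card + (X - C (z a)) * R, ?_, ?_⟩
    · intro j hj
      rw [Finset.card_insert_of_notMem ha] at hj
      obtain ⟨i, rfl⟩ : ∃ i, j = i + 1 := ⟨j - 1, by omega⟩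
      rw [coeff_add, coeff_C_mul_X_pow, if_neg (by omega), sub_mul, coeff_sub, coeff_X_mul,
        coeff_C_mul, hR i (by omega), hR (i + 1) (by omega)]
      ring
    · rw [Finset.prod_insert ha, Finset.card_insert_of_notMem ha, Finset.sum_insert ha,
        Finset.sum_insert ha]
      have e1 : C ((((z a + p) ^ 2 - (z a ^ 2 + r)) / 2 : ℂ)) =
          C ((p ^ 2 - r) / 2) + C (z a) * C p := by
        rw [← C_mul, ← C_add]
        congr 1
        ring
      rw [e1, C_add, C_neg, C_mul]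
      calc X ^ 2 * ((X - C (z a)) * ∏ k ∈ s, (X - C (z k))) =
          (X - C (z a)) * (X ^ 2 * ∏ k ∈ s, (X - C (z k))) := by ring
        _ = _ := by rw [h]; ring

theorem coeff2 {ι : Type} (s : Finset ι) (z : ι → ℂ) (n : ℕ) (hn : n + 2 = s.card) :
    (∏ k ∈ s, (X - C (z k))).coeff n = ((∑ k ∈ s, z k) ^ 2 - ∑ k ∈ s, z k ^ 2) / 2 := by
  obtain ⟨R, hR, h⟩ := expand s z
  have h1 := congrArg (fun f => coeff f (n + 2)) h
  beta_reduce at h1
  rw [coeff_X_pow_mul, coeff_add, hR (n + 2) hn.ge, add_zero, ← hn] at h1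
  have h2 : (X ^ (n + 2) * (X ^ 2 - C (∑ k ∈ s, z k) * X +
      C (((∑ k ∈ s, z k) ^ 2 - ∑ k ∈ s, z k ^ 2) / 2)) : ℂ[X]).coeff (n + 2) =
      (X ^ 2 - C (∑ k ∈ s, z k) * X +
      C (((∑ k ∈ s, z k) ^ 2 - ∑ k ∈ s, z k ^ 2) / 2) : ℂ[X]).coeff 0 := by
    have := coeff_X_pow_mul (X ^ 2 - C (∑ k ∈ s, z k) * X +
      C (((∑ k ∈ s, z k) ^ 2 - ∑ k ∈ s, z k ^ 2) / 2) : ℂ[X]) (n + 2) 0
    rw [zero_add] at this
    exact this
  rw [h2] at h1
  rw [h1]
  simp

end N221Pow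

theorem pow2 (hS : S_SUMW) : S_POW := by
  intro m z w hm hR hz
  obtain ⟨M, rfl⟩ : ∃ M, m = M + 2 := ⟨m - 2, by omega⟩
  have hw : ∑ i, w i = 0 := by
    have h1 := hS (M + 2) z w hR
    rw [hz, mul_zero] at h1
    rcases mul_eq_zero.1 h1 with h2 | h2
    · exfalso
      have : ((M + 2 : ℕ) : ℂ) + 1 ≠ 0 := by
        exact_mod_cast Nat.succ_ne_zero (M + 2)
      exact this h2
    · exact h2
  have h1 : (∏ k : Fin (M + 2 + 1), (X - C (z k))).coeff (M + 1) =
      ((∑ k, z k) ^ 2 - ∑ k, z k ^ 2) / 2 :=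
    N221Pow.coeff2 Finset.univ z (M + 1) (by rw [Finset.card_univ, Fintype.card_fin])
  have h2 : (∏ i : Fin (M + 2), (X - C (w i))).coeff M =
      ((∑ i, w i) ^ 2 - ∑ i, w i ^ 2) / 2 :=
    N221Pow.coeff2 Finset.univ w M (by rw [Finset.card_univ, Fintype.card_fin])
  have h3 := congrArg (fun f => coeff f M) hR
  beta_reduce at h3
  rw [coeff_derivative, coeff_C_mul, h1, h2, hz, hw] at h3
  push_cast at h3 ⊢
  linear_combination (-2) * h3

end Pool.Agent.N795.BV
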