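import Pool.Agent.N979.CAP.Stm

/-!
# Project CAP, task IDL (helper221 for helper979): the comass inequality, idealised form
-/

set_option autoImplicit false

namespace Pool.Agent.N221.CAP_IDL

open Real MeasureTheory Set Filter Topology Finset
open Pool.Agent.N979.CAP

theorem DD_lb {s : ℝ} (ψ : ℝ) (h0 : 0 ≤ s) (h1 : s ≤ 471 / 500) : 1 / 9 ≤ DD s ψ := by
  unfold DD
  have h2 : cos ψ ^ 2 ≤ 1 := cos_sq_le_one ψ
  have h3 : s ^ 2 ≤ (471 / 500) ^ 2 := pow_le_pow_left₀ h0 h1 2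
  have h4 : s ^ 2 * cos ψ ^ 2 ≤ s ^ 2 := mul_le_of_le_one_right (sq_nonneg s) h2
  norm_num at h3 ⊢
  linarith

theorem RIE' (hR : S_RIE) (T H : ℝ → ℝ) (hT : Continuous T) (hTp : ∀ ψ, T (ψ + π) = T ψ)
    (hH : ContinuousOn H (Set.Ioi 0)) (η : ℝ) (hη : 0 < η) :
    ∃ N₀ : ℕ, ∀ N ≥ N₀, ∀ s ∈ Set.Icc (0 : ℝ) (471 / 500), ∀ φ : ℝ,
      |π / N * ∑ j ∈ range N, T (ps N φ j) * H (DD s (ps N φ j)) -
        ∫ ψ in (0 : ℝ)..π, T ψ * H (DD s ψ)| ≤ η := by
  refine hR (471 / 500) (by norm_num) (fun ψ s => T ψ * H (DD s ψ)) ?_ ?_ η hη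
  · refine (hT.comp continuous_fst).continuousOn.mul ?_
    refine hH.comp (t := Set.Ioi 0) (f := fun p : ℝ × ℝ => DD p.2 p.1) ?_ ?_
    · apply Continuous.continuousOn
      unfold DD
      fun_prop
    · intro p hp
      have := DD_lb p.1 hp.2.1 hp.2.2
      rw [Set.mem_Ioi]
      linarith
  · intro ψ s
    have : DD s (ψ + π) = DD s ψ := by unfold DD; rw [cos_add_pi, neg_sq]
    rw [hTp, this]

theorem comb3 (N : ℕ) (w : ℝ) (F x y z : ℕ → ℝ) (α β γ : ℝ)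
    (h : ∀ j, F j = α * x j + β * y j + γ * z j) :
    w * ∑ j ∈ range N, F j = α * (w * ∑ j ∈ range N, x j) + β * (w * ∑ j ∈ range N, y j) +
      γ * (w * ∑ j ∈ range N, z j) := by
  rw [Finset.sum_congr rfl fun j _ => h j, Finset.sum_add_distrib, Finset.sum_add_distrib,
    ← Finset.mul_sum, ← Finset.mul_sum, ← Finset.mul_sum]
  ring

theorem abs_sm_le (N : ℕ) (g a : ℕ → ℝ) (M : ℝ) (hg : ∀ j, |g j| ≤ M)
    (ha : ∀ j, |a j| ≤ 1) : |π / N * ∑ j ∈ range N, g j * a j| ≤ 4 * M := by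
  have hM : 0 ≤ M := (abs_nonneg _).trans (hg 0)
  have hw : 0 ≤ π / N := by positivity
  have h1 : |∑ j ∈ range N, g j * a j| ≤ N * M := by
    calc |∑ j ∈ range N, g j * a j| ≤ ∑ j ∈ range N, |g j * a j| := Finset.abs_sum_le_sum_abs _ _
      _ ≤ ∑ _j ∈ range N, M := Finset.sum_le_sum fun j _ => by
          rw [abs_mul]
          calc |g j| * |a j| ≤ M * 1 := mul_le_mul (hg j) (ha j) (abs_nonneg _) hM
            _ = M := mul_one M
      _ = N * M := by rw [Finset.sum_const, Finset.card_range, nsmul_eq_mul]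
  rw [abs_mul, abs_of_nonneg hw]
  have h2 : π / N * N ≤ 4 := by
    rcases Nat.eq_zero_or_pos N with h | h
    · subst h; norm_num
    · have : (N : ℝ) ≠ 0 := by exact_mod_cast h.ne'
      rw [div_mul_cancel₀ _ this]
      exact pi_le_four
  calc π / N * |∑ j ∈ range N, g j * a j| ≤ π / N * (N * M) :=
        mul_le_mul_of_nonneg_left h1 hw
    _ = π / N * N * M := by ring
    _ ≤ 4 * M := mul_le_mul_of_nonneg_right h2 hM

theorem gram16 (G : Fin 4 → Fin 4 → ℝ) (hs : ∀ i l, G i l = G l i) (D : Fin 4 → ℝ) (ε : ℝ)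
    (h00 : |G 0 0 - D 0| ≤ ε) (h11 : |G 1 1 - D 1| ≤ ε) (h22 : |G 2 2 - D 2| ≤ ε)
    (h33 : |G 3 3 - D 3| ≤ ε) (h01 : |G 0 1| ≤ ε) (h02 : |G 0 2| ≤ ε) (h03 : |G 0 3| ≤ ε)
    (h12 : |G 1 2| ≤ ε) (h13 : |G 1 3| ≤ ε) (h23 : |G 2 3| ≤ ε) :
    ∀ i l, |G i l - (if i = l then D i else 0)| ≤ ε := by
  have key : ∀ i l, i < l → |G i l| ≤ ε := by
    intro i l
    fin_cases i <;> fin_cases l <;> intro h <;>
      first
        | exact absurd h (by decide)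
        | exact h01
        | exact h02
        | exact h03
        | exact h12
        | exact h13
        | exact h23
  intro i l
  rcases lt_trichotomy i l with h | h | h
  · rw [if_neg h.ne, sub_zero]
    exact key i l h
  · subst h
    rw [if_pos rfl]
    fin_cases i
    · exact h00
    · exact h11
    · exact h22
    · exact h33
  · rw [if_neg h.ne', sub_zero, hs]
    exact key l i h

theorem mb {α C x η : ℝ} (h1 : |α| ≤ C) (h2 : |x| ≤ η) : |α * x| ≤ C * η := by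
  rw [abs_mul]
  exact mul_le_mul h1 h2 (abs_nonneg _) ((abs_nonneg _).trans h1)

/-- the pointwise identities -/
theorem pt {C S r c p : ℝ} (A B : ℝ) (hr : 0 < r) (hc : 0 < c) (hp : 0 < p) :
    let x0 := 2 / p * c ^ 2 * C / (r ^ 2 * r)
    let x1 := 2 / p * c * S / (r ^ 2 * r)
    let x2 := C * A - x0
    let x3 := S * B - x1
    let lam := c / (p * r ^ 2)
    x0 * x0 / lam = 4 * c ^ 3 / p * (C ^ 2 * (1 / (r ^ 2) ^ 2)) ∧
    x1 * x1 / lam = 4 * c / p * (S ^ 2 * (1 / (r ^ 2) ^ 2)) ∧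
    x0 * x1 / lam = 4 * c ^ 2 / p * (S * C * (1 / (r ^ 2) ^ 2)) ∧
    x0 * x2 / lam = 2 * c * A * (C ^ 2 * (1 / r)) + -(4 * c ^ 3 / p) *
      (C ^ 2 * (1 / (r ^ 2) ^ 2)) ∧
    x0 * x3 / lam = 2 * c * B * (S * C * (1 / r)) + -(4 * c ^ 2 / p) *
      (S * C * (1 / (r ^ 2) ^ 2)) ∧
    x1 * x2 / lam = 2 * A * (S * C * (1 / r)) + -(4 * c ^ 2 / p) *
      (S * C * (1 / (r ^ 2) ^ 2)) ∧
    x1 * x3 / lam = 2 * B * (S ^ 2 * (1 / r)) + -(4 * c / p) *
      (S ^ 2 * (1 / (r ^ 2) ^ 2)) ∧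
    x2 * x2 / lam = A ^ 2 * (p / c) * (C ^ 2 * r ^ 2) + -(4 * c * A) * (C ^ 2 * (1 / r)) +
      4 * c ^ 3 / p * (C ^ 2 * (1 / (r ^ 2) ^ 2)) ∧
    x3 * x3 / lam = B ^ 2 * (p / c) * (S ^ 2 * r ^ 2) + -(4 * B) * (S ^ 2 * (1 / r)) +
      4 * c / p * (S ^ 2 * (1 / (r ^ 2) ^ 2)) ∧
    x2 * x3 / lam = A * B * (p / c) * (S * C * r ^ 2) + -(2 * A + 2 * c * B) *
      (S * C * (1 / r)) + 4 * c ^ 2 / p * (S * C * (1 / (r ^ 2) ^ 2)) := by
  intro x0 x1 x2 x3 lam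
  simp only [x0, x1, x2, x3, lam]
  refine ⟨?_, ?_, ?_, ?_, ?_, ?_, ?_, ?_, ?_, ?_⟩ <;> field_simp <;> ring

/-- the weights -/
noncomputable def kw : Fin 4 → ℝ := ![1 / 2, 1 / 2, 9 / 25, 25 / 36]

/-- the four functions -/
noncomputable def ff (C S r : ℕ → ℝ) (c A B : ℝ) : Fin 4 → ℕ → ℝ :=
  ![fun j => 2 / π * c ^ 2 * C j / (r j ^ 2 * r j),
    fun j => 2 / π * c * S j / (r j ^ 2 * r j),
    fun j => C j * A - 2 / π * c ^ 2 * C j / (r j ^ 2 * r j),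
    fun j => S j * B - 2 / π * c * S j / (r j ^ 2 * r j)]

theorem ff_bd {C S r : ℕ → ℝ} {c A B : ℝ} (hC : ∀ j, |C j| ≤ 1) (hS : ∀ j, |S j| ≤ 1)
    (hr : ∀ j, 1 / 3 ≤ r j) (hc : 0 < c) (hc1 : c ≤ 1) (hA0 : 0 < A) (hA : A ≤ 2)
    (hB0 : 0 < B) (hB : B ≤ 1) (i : Fin 4) (j : ℕ) : |ff C S r c A B i j| ≤ 29 := by
  have hr0 : 0 < r j := by linarith [hr j]
  have hp : 2 / π ≤ 1 := by
    rw [div_le_one pi_pos]
    linarith [pi_gt_three]
  have hp0 : 0 < 2 / π := by positivity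
  have hrr : 1 / 27 ≤ r j ^ 2 * r j := by
    have h1 : (1 / 3 : ℝ) ^ 2 * (1 / 3) ≤ r j ^ 2 * r j := by
      have := hr j
      gcongr
    norm_num at h1 ⊢
    exact h1
  have hrr0 : 0 < r j ^ 2 * r j := by positivity
  have e0 : |2 / π * c ^ 2 * C j / (r j ^ 2 * r j)| ≤ 27 := by
    rw [abs_div, abs_of_pos hrr0, div_le_iff₀ hrr0, abs_mul, abs_of_pos (by positivity)]
    have h1 : 2 / π * c ^ 2 * |C j| ≤ 1 * 1 ^ 2 * 1 := by
      have := hC j
      gcongr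
    linarith
  have e1 : |2 / π * c * S j / (r j ^ 2 * r j)| ≤ 27 := by
    rw [abs_div, abs_of_pos hrr0, div_le_iff₀ hrr0, abs_mul, abs_of_pos (by positivity)]
    have h1 : 2 / π * c * |S j| ≤ 1 * 1 * 1 := by
      have := hS j
      gcongr
    linarith
  have e2 : |C j * A| ≤ 2 := by
    rw [abs_mul, abs_of_pos hA0]
    have := hC j
    nlinarith [abs_nonneg (C j)]
  have e3 : |S j * B| ≤ 2 := by
    rw [abs_mul, abs_of_pos hB0]
    have := hS j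
    nlinarith [abs_nonneg (S j)]
  fin_cases i
  · exact e0.trans (by norm_num)
  · exact e1.trans (by norm_num)
  · refine (abs_sub _ _).trans ?_
    linarith
  · refine (abs_sub _ _).trans ?_
    linarith

theorem kw_nonneg (i : Fin 4) : 0 ≤ kw i := by
  unfold kw
  fin_cases i <;> simp <;> norm_num

theorem kw_le (i : Fin 4) : kw i ≤ 1 := by
  unfold kw
  fin_cases i <;> simp <;> norm_num

theorem tail (n : Fin 4 → ℝ) (hn : ∀ i, |n i| ≤ 116) : (∑ i, kw i * |n i|) ^ 2 ≤ 215296 := by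
  have hs : ∑ i, kw i * |n i| ≤ 464 := by
    calc ∑ i, kw i * |n i| ≤ ∑ _i : Fin 4, (1 * 116 : ℝ) :=
          Finset.sum_le_sum fun i _ =>
            mul_le_mul (kw_le i) (hn i) (abs_nonneg _) zero_le_one
      _ = 464 := by rw [Finset.sum_const, Finset.card_univ, Fintype.card_fin]; norm_num
  have hs0 : 0 ≤ ∑ i, kw i * |n i| :=
    Finset.sum_nonneg fun i _ => mul_nonneg (kw_nonneg i) (abs_nonneg _)
  calc (∑ i, kw i * |n i|) ^ 2 ≤ 464 ^ 2 := pow_le_pow_left₀ hs0 hs 2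
    _ = 215296 := by norm_num

theorem core (hB : S_BES) {N : ℕ} {C S r : ℕ → ℝ} (hC : ∀ j, |C j| ≤ 1) (hS : ∀ j, |S j| ≤ 1)
    (hr : ∀ j, 1 / 3 ≤ r j) {c A B Jr Jt J8 J9 η : ℝ} (hη : 0 ≤ η) (hc : 1 / 3 ≤ c)
    (hc1 : c ≤ 1) (hA : A * (c * Jr) = 1) (hA0 : 0 < A) (hA2 : A ≤ 2) (hBt : B * Jt = 1)
    (hB0 : 0 < B) (hB1 : B ≤ 1)
    (b2 : |π / N * ∑ j ∈ range N, C j ^ 2 * (1 / (r j ^ 2) ^ 2) - π / (2 * c ^ 3)| ≤ η)
    (b3 : |π / N * ∑ j ∈ range N, S j ^ 2 * (1 / (r j ^ 2) ^ 2) - π / (2 * c)| ≤ η)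
    (b4 : |π / N * ∑ j ∈ range N, S j * C j * (1 / (r j ^ 2) ^ 2)| ≤ η)
    (b5 : |π / N * ∑ j ∈ range N, C j ^ 2 * (1 / r j) - Jr| ≤ η)
    (b6 : |π / N * ∑ j ∈ range N, S j ^ 2 * (1 / r j) - Jt| ≤ η)
    (b7 : |π / N * ∑ j ∈ range N, S j * C j * (1 / r j)| ≤ η)
    (b8 : |π / N * ∑ j ∈ range N, C j ^ 2 * r j ^ 2 - J8| ≤ η)
    (b9 : |π / N * ∑ j ∈ range N, S j ^ 2 * r j ^ 2 - J9| ≤ η)
    (b10 : |π / N * ∑ j ∈ range N, S j * C j * r j ^ 2| ≤ η)
    (hD2 : A ^ 2 * (π / c) * J8 - 2 ≤ 25 / 9) (hD3 : B ^ 2 * (π / c) * J9 - 2 ≤ 36 / 25)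
    {a : ℕ → ℝ} (ha : ∀ j, |a j| ≤ 1) :
    ∑ i, kw i * (π / N * ∑ j ∈ range N, ff C S r c A B i j * a j) ^ 2 ≤
      π / N * ∑ j ∈ range N, c / (π * r j ^ 2) * a j ^ 2 + 100 * η * 215296 := by
  have hc0 : 0 < c := by linarith
  have hr0 : ∀ j, 0 < r j := fun j => by linarith [hr j]
  have hw : 0 ≤ π / N := by positivity
  have hp3 := pi_gt_three
  have hp4 := pi_le_four
  set R2 := π / N * ∑ j ∈ range N, C j ^ 2 * (1 / (r j ^ 2) ^ 2) with hR2
  set R3 := π / N * ∑ j ∈ range N, S j ^ 2 * (1 / (r j ^ 2) ^ 2) with hR3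
  set R4 := π / N * ∑ j ∈ range N, S j * C j * (1 / (r j ^ 2) ^ 2) with hR4
  set R5 := π / N * ∑ j ∈ range N, C j ^ 2 * (1 / r j) with hR5
  set R6 := π / N * ∑ j ∈ range N, S j ^ 2 * (1 / r j) with hR6
  set R7 := π / N * ∑ j ∈ range N, S j * C j * (1 / r j) with hR7
  set R8 := π / N * ∑ j ∈ range N, C j ^ 2 * r j ^ 2 with hR8
  set R9 := π / N * ∑ j ∈ range N, S j ^ 2 * r j ^ 2 with hR9
  set R10 := π / N * ∑ j ∈ range N, S j * C j * r j ^ 2 with hR10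
  set f := ff C S r c A B with hf
  set lam : ℕ → ℝ := fun j => c / (π * r j ^ 2) with hlam
  set G : Fin 4 → Fin 4 → ℝ := fun i l => π / N * ∑ j ∈ range N, f i j * f l j / lam j with hG
  have P := fun j => pt (C := C j) (S := S j) A B (hr0 j) hc0 pi_pos
  -- the Gram matrix
  have g00 : G 0 0 = 4 * c ^ 3 / π * R2 := by
    rw [hR2, hG]
    have := comb3 N (π / N) (fun j => f 0 j * f 0 j / lam j)
      (fun j => C j ^ 2 * (1 / (r j ^ 2) ^ 2)) (fun _ => 0) (fun _ => 0) (4 * c ^ 3 / π) 0 0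
      (fun j => by rw [zero_mul, add_zero, add_zero]; exact (P j).1)
    rw [zero_mul, add_zero, add_zero] at this
    exact this
  have g11 : G 1 1 = 4 * c / π * R3 := by
    rw [hR3, hG]
    have := comb3 N (π / N) (fun j => f 1 j * f 1 j / lam j)
      (fun j => S j ^ 2 * (1 / (r j ^ 2) ^ 2)) (fun _ => 0) (fun _ => 0) (4 * c / π) 0 0
      (fun j => by rw [zero_mul, add_zero, add_zero]; exact (P j).2.1)
    rw [zero_mul, add_zero, add_zero] at this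
    exact this
  have g01 : G 0 1 = 4 * c ^ 2 / π * R4 := by
    rw [hR4, hG]
    have := comb3 N (π / N) (fun j => f 0 j * f 1 j / lam j)
      (fun j => S j * C j * (1 / (r j ^ 2) ^ 2)) (fun _ => 0) (fun _ => 0) (4 * c ^ 2 / π) 0 0
      (fun j => by rw [zero_mul, add_zero, add_zero]; exact (P j).2.2.1)
    rw [zero_mul, add_zero, add_zero] at this
    exact this
  have g02 : G 0 2 = 2 * c * A * R5 + -(4 * c ^ 3 / π) * R2 := by
    rw [hR5, hR2, hG]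
    have := comb3 N (π / N) (fun j => f 0 j * f 2 j / lam j)
      (fun j => C j ^ 2 * (1 / r j)) (fun j => C j ^ 2 * (1 / (r j ^ 2) ^ 2)) (fun _ => 0)
      (2 * c * A) (-(4 * c ^ 3 / π)) 0
      (fun j => by rw [zero_mul, add_zero]; exact (P j).2.2.2.1)
    rw [zero_mul, add_zero] at this
    exact this
  have g03 : G 0 3 = 2 * c * B * R7 + -(4 * c ^ 2 / π) * R4 := by
    rw [hR7, hR4, hG]
    have := comb3 N (π / N) (fun j => f 0 j * f 3 j / lam j)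
      (fun j => S j * C j * (1 / r j)) (fun j => S j * C j * (1 / (r j ^ 2) ^ 2)) (fun _ => 0)
      (2 * c * B) (-(4 * c ^ 2 / π)) 0
      (fun j => by rw [zero_mul, add_zero]; exact (P j).2.2.2.2.1)
    rw [zero_mul, add_zero] at this
    exact this
  have g12 : G 1 2 = 2 * A * R7 + -(4 * c ^ 2 / π) * R4 := by
    rw [hR7, hR4, hG]
    have := comb3 N (π / N) (fun j => f 1 j * f 2 j / lam j)
      (fun j => S j * C j * (1 / r j)) (fun j => S j * C j * (1 / (r j ^ 2) ^ 2)) (fun _ => 0)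
      (2 * A) (-(4 * c ^ 2 / π)) 0
      (fun j => by rw [zero_mul, add_zero]; exact (P j).2.2.2.2.2.1)
    rw [zero_mul, add_zero] at this
    exact this
  have g13 : G 1 3 = 2 * B * R6 + -(4 * c / π) * R3 := by
    rw [hR6, hR3, hG]
    have := comb3 N (π / N) (fun j => f 1 j * f 3 j / lam j)
      (fun j => S j ^ 2 * (1 / r j)) (fun j => S j ^ 2 * (1 / (r j ^ 2) ^ 2)) (fun _ => 0)
      (2 * B) (-(4 * c / π)) 0
      (fun j => by rw [zero_mul, add_zero]; exact (P j).2.2.2.2.2.2.1)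
    rw [zero_mul, add_zero] at this
    exact this
  have g22 : G 2 2 = A ^ 2 * (π / c) * R8 + -(4 * c * A) * R5 + 4 * c ^ 3 / π * R2 := by
    rw [hR8, hR5, hR2, hG]
    exact comb3 N (π / N) (fun j => f 2 j * f 2 j / lam j)
      (fun j => C j ^ 2 * r j ^ 2) (fun j => C j ^ 2 * (1 / r j))
      (fun j => C j ^ 2 * (1 / (r j ^ 2) ^ 2)) (A ^ 2 * (π / c)) (-(4 * c * A)) (4 * c ^ 3 / π)
      (fun j => (P j).2.2.2.2.2.2.2.1)
  have g33 : G 3 3 = B ^ 2 * (π / c) * R9 + -(4 * B) * R6 + 4 * c / π * R3 := by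
    rw [hR9, hR6, hR3, hG]
    exact comb3 N (π / N) (fun j => f 3 j * f 3 j / lam j)
      (fun j => S j ^ 2 * r j ^ 2) (fun j => S j ^ 2 * (1 / r j))
      (fun j => S j ^ 2 * (1 / (r j ^ 2) ^ 2)) (B ^ 2 * (π / c)) (-(4 * B)) (4 * c / π)
      (fun j => (P j).2.2.2.2.2.2.2.2.1)
  have g23 : G 2 3 = A * B * (π / c) * R10 + -(2 * A + 2 * c * B) * R7 +
      4 * c ^ 2 / π * R4 := by
    rw [hR10, hR7, hR4, hG]
    exact comb3 N (π / N) (fun j => f 2 j * f 3 j / lam j)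
      (fun j => S j * C j * r j ^ 2) (fun j => S j * C j * (1 / r j))
      (fun j => S j * C j * (1 / (r j ^ 2) ^ 2)) (A * B * (π / c)) (-(2 * A + 2 * c * B))
      (4 * c ^ 2 / π) (fun j => (P j).2.2.2.2.2.2.2.2.2)
  -- bounds of the coefficients
  have hpc : π / c ≤ 12 := by
    rw [div_le_iff₀ hc0]
    linarith only [hp4, hc]
  have hpc0 : 0 < π / c := by positivity
  have q3 : |4 * c ^ 3 / π| ≤ 2 := by
    rw [abs_of_pos (by positivity), div_le_iff₀ pi_pos]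
    have : c ^ 3 ≤ 1 := pow_le_one₀ hc0.le hc1
    linarith
  have q2 : |4 * c ^ 2 / π| ≤ 2 := by
    rw [abs_of_pos (by positivity), div_le_iff₀ pi_pos]
    have : c ^ 2 ≤ 1 := pow_le_one₀ hc0.le hc1
    linarith
  have q1 : |4 * c / π| ≤ 2 := by
    rw [abs_of_pos (by positivity), div_le_iff₀ pi_pos]
    linarith
  have hcA : c * A ≤ 2 := by
    calc c * A ≤ 1 * 2 := by gcongr
      _ = 2 := by norm_num
  have hcB : c * B ≤ 1 := by
    calc c * B ≤ 1 * 1 := by gcongr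
      _ = 1 := by norm_num
  have i2 : 4 * c ^ 3 / π * (π / (2 * c ^ 3)) = 2 := by
    field_simp; norm_num
  have i3 : 4 * c / π * (π / (2 * c)) = 2 := by
    field_simp; norm_num
  -- the error terms
  have e2 := mb q3 b2
  have e3 := mb q1 b3
  have e4 := mb q2 b4
  have e5 : |c * A * (R5 - Jr)| ≤ 2 * η := mb (by rw [abs_of_pos (by positivity)]; exact hcA) b5
  have e6 : |B * (R6 - Jt)| ≤ 1 * η := mb (by rw [abs_of_pos hB0]; exact hB1) b6
  have e7 : |A * R7| ≤ 2 * η := mb (by rw [abs_of_pos hA0]; exact hA2) b7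
  have e7' : |c * B * R7| ≤ 1 * η := mb (by rw [abs_of_pos (by positivity)]; exact hcB) b7
  have e8 : |A ^ 2 * (π / c) * (R8 - J8)| ≤ 48 * η := by
    refine mb ?_ b8
    rw [abs_of_pos (by positivity)]
    calc A ^ 2 * (π / c) ≤ 2 ^ 2 * 12 := by gcongr
      _ = 48 := by norm_num
  have e9 : |B ^ 2 * (π / c) * (R9 - J9)| ≤ 12 * η := by
    refine mb ?_ b9
    rw [abs_of_pos (by positivity)]
    calc B ^ 2 * (π / c) ≤ 1 ^ 2 * 12 := by gcongr
      _ = 12 := by norm_num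
  have e10 : |A * B * (π / c) * R10| ≤ 24 * η := by
    refine mb ?_ b10
    rw [abs_of_pos (by positivity)]
    calc A * B * (π / c) ≤ 2 * 1 * 12 := by gcongr
      _ = 24 := by norm_num
  rw [abs_le] at e2 e3 e4 e5 e6 e7 e7' e8 e9 e10
  have hbes := hB N (π / N) (100 * η) hw (by positivity) lam a f kw
    ![2, 2, A ^ 2 * (π / c) * J8 - 2, B ^ 2 * (π / c) * J9 - 2]
    (fun j _ => by
      have := hr0 j
      simp only [hlam]
      positivity)
    kw_nonneg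
    (by
      intro i
      unfold kw
      fin_cases i
      · show (1 / 2 : ℝ) * 2 ≤ 1
        norm_num
      · show (1 / 2 : ℝ) * 2 ≤ 1
        norm_num
      · show (9 / 25 : ℝ) * (A ^ 2 * (π / c) * J8 - 2) ≤ 1
        linarith
      · show (25 / 36 : ℝ) * (B ^ 2 * (π / c) * J9 - 2) ≤ 1
        linarith)
    (by
      refine gram16 G ?_ _ _ ?_ ?_ ?_ ?_ ?_ ?_ ?_ ?_ ?_ ?_
      · intro i l
        simp only [hG]
        congr 1
        exact Finset.sum_congr rfl fun j _ => by rw [mul_comm (f i j)]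
      · show |G 0 0 - 2| ≤ _
        rw [g00, abs_le]
        constructor <;> linarith only [e2.1, e2.2, i2, hη]
      · show |G 1 1 - 2| ≤ _
        rw [g11, abs_le]
        constructor <;> linarith only [e3.1, e3.2, i3, hη]
      · show |G 2 2 - (A ^ 2 * (π / c) * J8 - 2)| ≤ _
        rw [g22, abs_le]
        constructor <;> linarith only [e8.1, e8.2, e5.1, e5.2, e2.1, e2.2, i2, hA, hη]
      · show |G 3 3 - (B ^ 2 * (π / c) * J9 - 2)| ≤ _
        rw [g33, abs_le]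
        constructor <;> linarith only [e9.1, e9.2, e6.1, e6.2, e3.1, e3.2, i3, hBt, hη]
      · rw [g01, abs_le]
        constructor <;> linarith only [e4.1, e4.2, hη]
      · rw [g02, abs_le]
        constructor <;> linarith only [e5.1, e5.2, e2.1, e2.2, i2, hA, hη]
      · rw [g03, abs_le]
        constructor <;> linarith only [e7'.1, e7'.2, e4.1, e4.2, hη]
      · rw [g12, abs_le]
        constructor <;> linarith only [e7.1, e7.2, e4.1, e4.2, hη]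
      · rw [g13, abs_le]
        constructor <;> linarith only [e6.1, e6.2, e3.1, e3.2, i3, hBt, hη]
      · rw [g23, abs_le]
        constructor <;>
          linarith only [e10.1, e10.2, e7.1, e7.2, e7'.1, e7'.2, e4.1, e4.2, hη])
  refine hbes.trans ?_
  have hn : ∀ i, |π / N * ∑ j ∈ range N, f i j * a j| ≤ 116 := fun i =>
    (abs_sm_le N (f i) a 29 (ff_bd hC hS hr hc0 hc1 hA0 hA2 hB0 hB1 i) ha).trans
      (by norm_num)
  exact add_le_add le_rfl (mul_le_mul_of_nonneg_left (tail _ hn) (by positivity))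

theorem rie_all (hI : S_INT) (hR : S_RIE) (η : ℝ) (hη : 0 < η) :
    ∃ N₀ : ℕ, ∀ N ≥ N₀, ∀ s ∈ Set.Icc (0 : ℝ) (471 / 500), ∀ φ : ℝ,
      |π / N * ∑ j ∈ range N, 1 * (1 / √(DD s (ps N φ j)) ^ 2) - π / √(1 - s ^ 2)| ≤ η ∧
      |π / N * ∑ j ∈ range N, cos (ps N φ j) ^ 2 * (1 / (√(DD s (ps N φ j)) ^ 2) ^ 2) -
        π / (2 * √(1 - s ^ 2) ^ 3)| ≤ η ∧
      |π / N * ∑ j ∈ range N, sin (ps N φ j) ^ 2 * (1 / (√(DD s (ps N φ j)) ^ 2) ^ 2) -
        π / (2 * √(1 - s ^ 2))| ≤ η ∧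
      |π / N * ∑ j ∈ range N, sin (ps N φ j) * cos (ps N φ j) *
        (1 / (√(DD s (ps N φ j)) ^ 2) ^ 2)| ≤ η ∧
      |π / N * ∑ j ∈ range N, cos (ps N φ j) ^ 2 * (1 / √(DD s (ps N φ j))) - Ir s| ≤ η ∧
      |π / N * ∑ j ∈ range N, sin (ps N φ j) ^ 2 * (1 / √(DD s (ps N φ j))) - It s| ≤ η ∧
      |π / N * ∑ j ∈ range N, sin (ps N φ j) * cos (ps N φ j) *
        (1 / √(DD s (ps N φ j)))| ≤ η ∧
      |π / N * ∑ j ∈ range N, cos (ps N φ j) ^ 2 * √(DD s (ps N φ j)) ^ 2 -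
        (π / 2 - 3 * π * s ^ 2 / 8)| ≤ η ∧
      |π / N * ∑ j ∈ range N, sin (ps N φ j) ^ 2 * √(DD s (ps N φ j)) ^ 2 -
        (π / 2 - π * s ^ 2 / 8)| ≤ η ∧
      |π / N * ∑ j ∈ range N, sin (ps N φ j) * cos (ps N φ j) *
        √(DD s (ps N φ j)) ^ 2| ≤ η := by
  have k1 : ContinuousOn (fun D : ℝ => 1 / √D ^ 2) (Set.Ioi 0) :=
    continuousOn_const.div (by fun_prop) fun D hD => by
      have : 0 < √D := Real.sqrt_pos.2 hD
      positivity
  have k2 : ContinuousOn (fun D : ℝ => 1 / (√D ^ 2) ^ 2) (Set.Ioi 0) :=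
    continuousOn_const.div (by fun_prop) fun D hD => by
      have : 0 < √D := Real.sqrt_pos.2 hD
      positivity
  have k5 : ContinuousOn (fun D : ℝ => 1 / √D) (Set.Ioi 0) :=
    continuousOn_const.div (by fun_prop) fun D hD => by
      have : 0 < √D := Real.sqrt_pos.2 hD
      positivity
  have k8 : ContinuousOn (fun D : ℝ => √D ^ 2) (Set.Ioi 0) := by fun_prop
  have pc : ∀ ψ, cos (ψ + π) ^ 2 = cos ψ ^ 2 := fun ψ => by rw [cos_add_pi, neg_sq]
  have psn : ∀ ψ, sin (ψ + π) ^ 2 = sin ψ ^ 2 := fun ψ => by rw [sin_add_pi, neg_sq]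
  have psc : ∀ ψ, sin (ψ + π) * cos (ψ + π) = sin ψ * cos ψ := fun ψ => by
    rw [cos_add_pi, sin_add_pi, neg_mul_neg]
  obtain ⟨N1, h1⟩ := RIE' hR (fun _ => 1) _ continuous_const (fun _ => rfl) k1 η hη
  obtain ⟨N2, h2⟩ := RIE' hR (fun ψ => cos ψ ^ 2) _ (by fun_prop) pc k2 η hη
  obtain ⟨N3, h3⟩ := RIE' hR (fun ψ => sin ψ ^ 2) _ (by fun_prop) psn k2 η hη
  obtain ⟨N4, h4⟩ := RIE' hR (fun ψ => sin ψ * cos ψ) _ (by fun_prop) psc k2 η hη
  obtain ⟨N5, h5⟩ := RIE' hR (fun ψ => cos ψ ^ 2) _ (by fun_prop) pc k5 η hη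
  obtain ⟨N6, h6⟩ := RIE' hR (fun ψ => sin ψ ^ 2) _ (by fun_prop) psn k5 η hη
  obtain ⟨N7, h7⟩ := RIE' hR (fun ψ => sin ψ * cos ψ) _ (by fun_prop) psc k5 η hη
  obtain ⟨N8, h8⟩ := RIE' hR (fun ψ => cos ψ ^ 2) _ (by fun_prop) pc k8 η hη
  obtain ⟨N9, h9⟩ := RIE' hR (fun ψ => sin ψ ^ 2) _ (by fun_prop) psn k8 η hη
  obtain ⟨N10, h10⟩ := RIE' hR (fun ψ => sin ψ * cos ψ) _ (by fun_prop) psc k8 η hη
  refine ⟨N1 + N2 + N3 + N4 + N5 + N6 + N7 + N8 + N9 + N10, fun N hN s hs φ => ?_⟩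
  have hD : ∀ ψ, √(DD s ψ) ^ 2 = DD s ψ := fun ψ =>
    Real.sq_sqrt (by linarith [DD_lb ψ hs.1 hs.2])
  have hs1 : s < 1 := lt_of_le_of_lt hs.2 (by norm_num)
  have odd : ∀ H : ℝ → ℝ, ∫ ψ in (0 : ℝ)..π, sin ψ * cos ψ * H (DD s ψ) = 0 := fun H =>
    hI.odd fun x => H (1 - s ^ 2 * x)
  refine ⟨?_, ?_, ?_, ?_, ?_, ?_, ?_, ?_, ?_, ?_⟩
  · have e : ∫ ψ in (0 : ℝ)..π, (1 : ℝ) * (1 / √(DD s ψ) ^ 2) = π / √(1 - s ^ 2) := by
      rw [← hI.one s hs.1 hs1]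
      congr 1
      funext ψ
      rw [hD, one_mul]
    have := h1 N (by omega) s hs φ
    rwa [e] at this
  · have e : ∫ ψ in (0 : ℝ)..π, cos ψ ^ 2 * (1 / (√(DD s ψ) ^ 2) ^ 2) =
        π / (2 * √(1 - s ^ 2) ^ 3) := by
      rw [← hI.cc s hs.1 hs1]
      congr 1
      funext ψ
      rw [hD, mul_one_div]
    have := h2 N (by omega) s hs φ
    rwa [e] at this
  · have e : ∫ ψ in (0 : ℝ)..π, sin ψ ^ 2 * (1 / (√(DD s ψ) ^ 2) ^ 2) =
        π / (2 * √(1 - s ^ 2)) := by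
      rw [← hI.ss s hs.1 hs1]
      congr 1
      funext ψ
      rw [hD, mul_one_div]
    have := h3 N (by omega) s hs φ
    rwa [e] at this
  · have := h4 N (by omega) s hs φ
    rwa [odd (fun D => 1 / (√D ^ 2) ^ 2), sub_zero] at this
  · have e : ∫ ψ in (0 : ℝ)..π, cos ψ ^ 2 * (1 / √(DD s ψ)) = Ir s := by
      unfold Ir
      congr 1
      funext ψ
      rw [mul_one_div]
    have := h5 N (by omega) s hs φ
    rwa [e] at this
  · have e : ∫ ψ in (0 : ℝ)..π, sin ψ ^ 2 * (1 / √(DD s ψ)) = It s := by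
      unfold It
      congr 1
      funext ψ
      rw [mul_one_div]
    have := h6 N (by omega) s hs φ
    rwa [e] at this
  · have := h7 N (by omega) s hs φ
    rwa [odd (fun D => 1 / √D), sub_zero] at this
  · have e : ∫ ψ in (0 : ℝ)..π, cos ψ ^ 2 * √(DD s ψ) ^ 2 = π / 2 - 3 * π * s ^ 2 / 8 := by
      rw [← hI.cD s]
      congr 1
      funext ψ
      rw [hD]
    have := h8 N (by omega) s hs φ
    rwa [e] at this
  · have e : ∫ ψ in (0 : ℝ)..π, sin ψ ^ 2 * √(DD s ψ) ^ 2 = π / 2 - π * s ^ 2 / 8 := by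
      rw [← hI.sD s]
      congr 1
      funext ψ
      rw [hD]
    have := h9 N (by omega) s hs φ
    rwa [e] at this
  · have := h10 N (by omega) s hs φ
    rwa [odd (fun D => √D ^ 2), sub_zero] at this

theorem fin_alg {x0 x1 x2 x3 y0 y1 y2 y3 T : ℝ}
    (h : (1 / 2 * x0 ^ 2 + 1 / 2 * x1 ^ 2 + 9 / 25 * x2 ^ 2 + 25 / 36 * x3 ^ 2) +
      (1 / 2 * y0 ^ 2 + 1 / 2 * y1 ^ 2 + 9 / 25 * y2 ^ 2 + 25 / 36 * y3 ^ 2) ≤ T) :
    (x0 * y1 - y0 * x1) - (x2 * y3 - y2 * x3) ≤ T := by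
  nlinarith [sq_nonneg (x0 - y1), sq_nonneg (y0 + x1), sq_nonneg (3 / 5 * x2 + 5 / 6 * y3),
    sq_nonneg (3 / 5 * y2 - 5 / 6 * x3)]

theorem main (hI : S_INT) (hR : S_RIE) (hB : S_BES) (hN : S_NUM) : S_IDL := by
  intro ε hε
  set η := ε / 43059201 with hη
  have hη0 : 0 < η := by positivity
  obtain ⟨N₀, hN₀⟩ := rie_all hI hR η hη0
  refine ⟨N₀, fun N hNN s hs φ a b hab na nb ma mb la lb ka kb hna hnb hma hmb hla hlb hka hkb =>
    ?_⟩
  obtain ⟨b1, b2, b3, b4, b5, b6, b7, b8, b9, b10⟩ := hN₀ N hNN s hs φ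
  set c := √(1 - s ^ 2) with hcdef
  have hs2 : s ^ 2 ≤ (471 / 500) ^ 2 := pow_le_pow_left₀ hs.1 hs.2 2
  have hc : 1 / 3 ≤ c := by
    apply Real.le_sqrt_of_sq_le
    norm_num at hs2 ⊢
    linarith
  have hc0 : 0 < c := by linarith
  have hc1 : c ≤ 1 := Real.sqrt_le_iff.2 ⟨zero_le_one, by linarith [sq_nonneg s]⟩
  have hcsq : c ^ 2 = 1 - s ^ 2 := Real.sq_sqrt (by norm_num at hs2; linarith)
  have hIr := hN.ir s hs.1 hs.2
  have hIt := hN.it s hs.1 hs.2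
  have hp3 := pi_gt_three
  have hIr0 : 0 < Ir s := by linarith
  have hIt0 : 0 < It s := by linarith
  have hcIr : 1 / 2 ≤ c * Ir s := by
    calc (1 : ℝ) / 2 = 1 / 3 * (3 / 2) := by norm_num
      _ ≤ c * Ir s := by
          have : 3 / 2 ≤ Ir s := by linarith
          gcongr
  have hcIr0 : 0 < c * Ir s := by positivity
  set A := 1 / (c * Ir s) with hA
  set B := 1 / It s with hBd
  have hA1 : A * (c * Ir s) = 1 := by rw [hA, one_div, inv_mul_cancel₀ hcIr0.ne']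
  have hB1 : B * It s = 1 := by rw [hBd, one_div, inv_mul_cancel₀ hIt0.ne']
  have hA0 : 0 < A := by positivity
  have hB0 : 0 < B := by positivity
  have hA2 : A ≤ 2 := by
    rw [hA, div_le_iff₀ hcIr0]
    linarith
  have hB2 : B ≤ 1 := by
    rw [hBd, div_le_one hIt0]
    linarith
  have hD2 : A ^ 2 * (π / c) * (π / 2 - 3 * π * s ^ 2 / 8) - 2 ≤ 25 / 9 := by
    have h1 := hN.a s hs.1 hs.2
    have e : A ^ 2 * (π / c) * (π / 2 - 3 * π * s ^ 2 / 8) =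
        π / c * (π / 2 - 3 * π * s ^ 2 / 8) / (c * Ir s) ^ 2 := by
      rw [hA]
      ring
    rw [e]
    exact h1
  have hD3 : B ^ 2 * (π / c) * (π / 2 - π * s ^ 2 / 8) - 2 ≤ 36 / 25 := by
    have h1 := hN.b s hs.1 hs.2
    have e : B ^ 2 * (π / c) * (π / 2 - π * s ^ 2 / 8) =
        π / c * (π / 2 - π * s ^ 2 / 8) / It s ^ 2 := by
      rw [hBd]
      ring
    rw [e]
    exact h1
  have hDp : ∀ ψ, 1 / 9 ≤ DD s ψ := fun ψ => DD_lb ψ hs.1 hs.2
  have hr : ∀ j, 1 / 3 ≤ √(DD s (ps N φ j)) := fun j => by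
    apply Real.le_sqrt_of_sq_le
    have := hDp (ps N φ j)
    norm_num
    linarith
  have hrsq : ∀ j, √(DD s (ps N φ j)) ^ 2 = DD s (ps N φ j) := fun j =>
    Real.sq_sqrt (by linarith [hDp (ps N φ j)])
  set C : ℕ → ℝ := fun j => cos (ps N φ j) with hC
  set S : ℕ → ℝ := fun j => sin (ps N φ j) with hS
  set r : ℕ → ℝ := fun j => √(DD s (ps N φ j)) with hrd
  have hC1 : ∀ j, |C j| ≤ 1 := fun j => abs_cos_le_one _
  have hS1 : ∀ j, |S j| ≤ 1 := fun j => abs_sin_le_one _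
  have ha1 : ∀ j, |a j| ≤ 1 := fun j =>
    (sq_le_one_iff_abs_le_one _).1 (by linarith only [hab j, sq_nonneg (b j)])
  have hb1 : ∀ j, |b j| ≤ 1 := fun j =>
    (sq_le_one_iff_abs_le_one _).1 (by linarith only [hab j, sq_nonneg (a j)])
  have ca := core hB hC1 hS1 hr hη0.le hc hc1 hA1 hA0 hA2 hB1 hB0 hB2 b2 b3 b4 b5 b6 b7 b8 b9 b10
    hD2 hD3 ha1
  have cb := core hB hC1 hS1 hr hη0.le hc hc1 hA1 hA0 hA2 hB1 hB0 hB2 b2 b3 b4 b5 b6 b7 b8 b9 b10
    hD2 hD3 hb1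
  rw [Fin.sum_univ_four] at ca cb
  -- identification of the four numbers
  have i0 : ∀ v : ℕ → ℝ, π / N * ∑ j ∈ range N, ff C S r c A B 0 j * v j = sm N φ (xr s) v := by
    intro v
    unfold sm
    congr 1
    refine Finset.sum_congr rfl fun j _ => ?_
    congr 1
    show 2 / π * c ^ 2 * C j / (r j ^ 2 * r j) = xr s (ps N φ j)
    unfold xr
    rw [hcsq, hrsq j]
  have i1 : ∀ v : ℕ → ℝ, π / N * ∑ j ∈ range N, ff C S r c A B 1 j * v j = sm N φ (xt s) v := by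
    intro v
    unfold sm
    congr 1
    refine Finset.sum_congr rfl fun j _ => ?_
    congr 1
    show 2 / π * c * S j / (r j ^ 2 * r j) = xt s (ps N φ j)
    unfold xt
    rw [hrsq j]
  have i2 : ∀ v : ℕ → ℝ, π / N * ∑ j ∈ range N, ff C S r c A B 2 j * v j =
      sm N φ cos v / (c * Ir s) - sm N φ (xr s) v := by
    intro v
    have e := comb3 N (π / N) (fun j => ff C S r c A B 2 j * v j)
      (fun j => cos (ps N φ j) * v j) (fun j => ff C S r c A B 0 j * v j) (fun _ => 0) A (-1) 0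
      (fun j => by
        show (C j * A - 2 / π * c ^ 2 * C j / (r j ^ 2 * r j)) * v j =
          A * (C j * v j) + -1 * (2 / π * c ^ 2 * C j / (r j ^ 2 * r j) * v j) + 0 * 0
        ring)
    rw [e, i0 v, hA]
    unfold sm
    ring
  have i3 : ∀ v : ℕ → ℝ, π / N * ∑ j ∈ range N, ff C S r c A B 3 j * v j =
      sm N φ sin v / It s - sm N φ (xt s) v := by
    intro v
    have e := comb3 N (π / N) (fun j => ff C S r c A B 3 j * v j)
      (fun j => sin (ps N φ j) * v j) (fun j => ff C S r c A B 1 j * v j) (fun _ => 0) B (-1) 0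
      (fun j => by
        show (S j * B - 2 / π * c * S j / (r j ^ 2 * r j)) * v j =
          B * (S j * v j) + -1 * (2 / π * c * S j / (r j ^ 2 * r j) * v j) + 0 * 0
        ring)
    rw [e, i1 v, hBd]
    unfold sm
    ring
  rw [i0, i1, i2, i3, ← hna, ← hma, ← hla, ← hka] at ca
  rw [i0, i1, i2, i3, ← hnb, ← hmb, ← hlb, ← hkb] at cb
  -- the sum of the weights
  have hlam : π / N * ∑ j ∈ range N, c / (π * r j ^ 2) * a j ^ 2 +
      π / N * ∑ j ∈ range N, c / (π * r j ^ 2) * b j ^ 2 ≤ 1 + η := by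
    have hr0 : ∀ j, 0 < r j := fun j => lt_of_lt_of_le (by norm_num) (hr j)
    have h1 : π / N * ∑ j ∈ range N, c / (π * r j ^ 2) * a j ^ 2 +
        π / N * ∑ j ∈ range N, c / (π * r j ^ 2) * b j ^ 2 ≤
        π / N * ∑ j ∈ range N, c / π * (1 * (1 / r j ^ 2)) := by
      rw [← mul_add, ← Finset.sum_add_distrib]
      refine mul_le_mul_of_nonneg_left (Finset.sum_le_sum fun j _ => ?_) (by positivity)
      have h2 := hr0 j
      calc c / (π * r j ^ 2) * a j ^ 2 + c / (π * r j ^ 2) * b j ^ 2 =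
            c / (π * r j ^ 2) * (a j ^ 2 + b j ^ 2) := by ring
        _ ≤ c / (π * r j ^ 2) * 1 := mul_le_mul_of_nonneg_left (hab j) (by positivity)
        _ = c / π * (1 * (1 / r j ^ 2)) := by
            have := pi_ne_zero
            field_simp
    refine h1.trans ?_
    rw [← Finset.mul_sum]
    have h2 := (abs_le.1 b1).2
    calc π / N * (c / π * ∑ j ∈ range N, 1 * (1 / r j ^ 2)) =
          c / π * (π / N * ∑ j ∈ range N, 1 * (1 / r j ^ 2)) := by ring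
      _ ≤ c / π * (π / c + η) := mul_le_mul_of_nonneg_left (by linarith) (by positivity)
      _ = 1 + c / π * η := by
          have := pi_ne_zero
          field_simp
      _ ≤ 1 + 1 * η := by
          have : c / π ≤ 1 := by
            rw [div_le_one pi_pos]
            linarith
          gcongr
      _ = 1 + η := by rw [one_mul]
  have hfin := fin_alg (x0 := na) (x1 := ma) (x2 := la - na) (x3 := ka - ma) (y0 := nb) (y1 := mb)
    (y2 := lb - nb) (y3 := kb - mb) (T := 1 + ε) (by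
      have k0 : kw 0 = 1 / 2 := rfl
      have k1 : kw 1 = 1 / 2 := rfl
      have k2 : kw 2 = 9 / 25 := rfl
      have k3 : kw 3 = 25 / 36 := rfl
      rw [k0, k1, k2, k3] at ca cb
      have h3 : 43059201 * η = ε := by rw [hη]; ring
      linarith only [ca, cb, hlam, h3])
  linarith only [hfin]

end Pool.Agent.N221.CAP_IDL
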