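import Pool.Agent.N347.LA.Defs

/-!
# Project LA, task CON (helper221 for helper347): connectivity after the split
-/

set_option autoImplicit false

namespace Pool.Agent.N221.LACONN_SPLIT

open Finset
open Pool.Agent.N347.LA

variable {A : Type}

/-- `x` reaches a vertex with an edge to the outer vertex -/
def Good {B : Type} (m : B → B → ℕ) (z : B → ℕ) (x : B) : Prop :=
  ∃ y, Relation.ReflTransGen (fun u v => 0 < m u v) x y ∧ 0 < z y

theorem Good.step {B : Type} {m : B → B → ℕ} {z : B → ℕ} {x y : B} (h : 0 < m x y)
    (hy : Good m z y) : Good m z x := by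
  obtain ⟨w, hw, hz⟩ := hy
  exact ⟨w, Relation.ReflTransGen.head h hw, hz⟩

theorem Good.refl {B : Type} {m : B → B → ℕ} {z : B → ℕ} {x : B} (h : 0 < z x) : Good m z x :=
  ⟨x, Relation.ReflTransGen.refl, h⟩

theorem adj_some_some {m : A → A → ℕ} {z : A → ℕ} (hs : ∀ u v, m u v = m v u) {a u v : A} :
    (Gr m z a).Adj (some u) (some v) ↔ u ≠ v ∧ u ≠ a ∧ v ≠ a ∧ 0 < m u v := by
  unfold Gr
  rw [SimpleGraph.fromRel_adj]
  constructor
  · rintro ⟨hne, h⟩
    refine ⟨fun h' => hne (by rw [h']), ?_⟩
    rcases h with (⟨u', v', h1, h2, h3, h4, h5⟩ | ⟨u', _, h2, _⟩) |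
      (⟨u', v', h1, h2, h3, h4, h5⟩ | ⟨u', _, h2, _⟩)
    · rw [Option.some.injEq] at h1 h2
      subst h1 h2
      exact ⟨h3, h4, h5⟩
    · exact absurd h2 (Option.some_ne_none v)
    · rw [Option.some.injEq] at h1 h2
      subst h1 h2
      exact ⟨h4, h3, by rw [hs]; exact h5⟩
    · exact absurd h2 (Option.some_ne_none u)
  · rintro ⟨h1, h2, h3, h4⟩
    exact ⟨fun h' => h1 (Option.some.inj h'), Or.inl (Or.inl ⟨u, v, rfl, rfl, h2, h3, h4⟩)⟩

theorem adj_some_none {m : A → A → ℕ} {z : A → ℕ} {a u : A} :
    (Gr m z a).Adj (some u) none ↔ u ≠ a ∧ 0 < z u := by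
  unfold Gr
  rw [SimpleGraph.fromRel_adj]
  constructor
  · rintro ⟨hne, h⟩
    rcases h with (⟨u', v', h1, h2, h3, h4, h5⟩ | ⟨u', h1, h2, h3, h4⟩) |
      (⟨u', v', h1, h2, h3, h4, h5⟩ | ⟨u', h1, h2, _⟩)
    · exact absurd h2.symm (Option.some_ne_none v')
    · rw [Option.some.injEq] at h1
      subst h1
      exact ⟨h3, h4⟩
    · exact absurd h1.symm (Option.some_ne_none u')
    · exact absurd h2 (Option.some_ne_none u)
  · rintro ⟨h1, h2⟩
    exact ⟨Option.some_ne_none u, Or.inl (Or.inr ⟨u, rfl, rfl, h1, h2⟩)⟩

theorem not_adj_a {m : A → A → ℕ} {z : A → ℕ} (hs : ∀ u v, m u v = m v u) {a : A}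
    (y : Option A) : ¬ (Gr m z a).Adj (some a) y := by
  intro h
  cases y with
  | none => exact (adj_some_none.1 h).1 rfl
  | some v => exact ((adj_some_some hs).1 h).2.1 rfl

/-- `some a` is isolated -/
theorem reach_a {m : A → A → ℕ} {z : A → ℕ} (hs : ∀ u v, m u v = m v u) {a : A} {y : Option A}
    (h : (Gr m z a).Reachable (some a) y) : y = some a := by
  rw [SimpleGraph.reachable_iff_reflTransGen] at h
  rcases Relation.ReflTransGen.cases_head h with h | ⟨w, hw, _⟩
  · exact h.symm
  · exact absurd hw (not_adj_a hs w)

open Classical in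
theorem mNew_ne {m : A → A → ℕ} {a : A} {t : Option A → ℕ} {u v : A} (hu : u ≠ a) (hv : v ≠ a) :
    mNew m a t (some u) (some v) = m u v := by
  show (if u = a then _ else if v = a then _ else m u v) = m u v
  rw [if_neg hu, if_neg hv]

open Classical in
/-- connections in the graph without `a` survive -/
theorem transfer {m : A → A → ℕ} {z : A → ℕ} (hs : ∀ u v, m u v = m v u) {a : A}
    {t : Option A → ℕ} {x y : Option A} (h : (Gr m z a).Reachable y x)
    (hx : x = none ∨ Good (mNew m a t) (zNew z a t) x) :
    y = none ∨ Good (mNew m a t) (zNew z a t) y := by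
  rw [SimpleGraph.reachable_iff_reflTransGen] at h
  induction h using Relation.ReflTransGen.head_induction_on with
  | refl => exact hx
  | head hadj hrest ih =>
    rename_i y y'
    cases y with
    | none => exact Or.inl rfl
    | some u =>
      right
      cases y' with
      | none =>
        have h1 := adj_some_none.1 hadj
        refine Good.refl ?_
        show 0 < if u = a then _ else z u
        rw [if_neg h1.1]
        exact h1.2
      | some v =>
        have h1 := (adj_some_some hs).1 hadj
        rcases ih with ih | ih
        · exact absurd ih (Option.some_ne_none v)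
        · refine Good.step ?_ ih
          rw [mNew_ne h1.2.1 h1.2.2.1]
          exact h1.2.2.2

/-- some vertex of the component of the outer vertex is joined to `a` -/
theorem factD {m : A → A → ℕ} {z : A → ℕ} (hs : ∀ u v, m u v = m v u) (hc : Conn m z) (a : A) :
    ∃ x, (Gr m z a).Reachable x none ∧ 0 < ends m z a x := by
  obtain ⟨y, hy, hz⟩ := hc a
  have key : (∃ x, (Gr m z a).Reachable x none ∧ 0 < ends m z a x) ∨
      (a ≠ a ∧ (Gr m z a).Reachable (some a) none) := by
    have gen : ∀ v, Relation.ReflTransGen (fun u v => 0 < m u v) v y →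
        (∃ x, (Gr m z a).Reachable x none ∧ 0 < ends m z a x) ∨
        (v ≠ a ∧ (Gr m z a).Reachable (some v) none) := by
      intro v hv
      induction hv using Relation.ReflTransGen.head_induction_on with
      | refl =>
        by_cases h : y = a
        · left
          exact ⟨none, SimpleGraph.Reachable.refl _, by rw [← h]; exact hz⟩
        · right
          exact ⟨h, (adj_some_none.2 ⟨h, hz⟩).reachable⟩
      | head hadj hrest ih =>
        rename_i v v'
        rcases ih with ih | ⟨h1, h2⟩
        · exact Or.inl ih
        · by_cases h : v = a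
          · left
            refine ⟨some v', h2, ?_⟩
            show 0 < m a v'
            rw [← h]
            exact hadj
          · right
            refine ⟨h, ?_⟩
            by_cases h3 : v = v'
            · rw [h3]; exact h2
            · exact ((adj_some_some hs).2 ⟨h3, h, h1, hadj⟩).reachable.trans h2
    exact gen a hy
  rcases key with h | h
  · exact h
  · exact absurd rfl h.1

/-- a component without the outer vertex has a vertex which is joined to `a` -/
theorem factE {m : A → A → ℕ} {z : A → ℕ} (hs : ∀ u v, m u v = m v u) (hc : Conn m z) (a u : A)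
    (hu : u ≠ a) (hn : ¬ (Gr m z a).Reachable (some u) none) :
    ∃ x, (Gr m z a).Reachable (some u) x ∧ 0 < ends m z a x := by
  obtain ⟨y, hy, hz⟩ := hc u
  have gen : ∀ v, Relation.ReflTransGen (fun u v => 0 < m u v) v y →
      v = a ∨ (Gr m z a).Reachable (some v) none ∨
        ∃ x, (Gr m z a).Reachable (some v) x ∧ 0 < ends m z a x := by
    intro v hv
    induction hv using Relation.ReflTransGen.head_induction_on with
    | refl =>
      by_cases h : y = a
      · exact Or.inl h
      · exact Or.inr (Or.inl (adj_some_none.2 ⟨h, hz⟩).reachable)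
    | head hadj hrest ih =>
      rename_i v v'
      by_cases h : v = a
      · exact Or.inl h
      · right
        by_cases h' : v' = a
        · right
          refine ⟨some v, SimpleGraph.Reachable.refl _, ?_⟩
          show 0 < m a v
          rw [← h', hs]
          exact hadj
        · have h3 : (Gr m z a).Reachable (some v) (some v') := by
            by_cases h4 : v = v'
            · rw [h4]
            · exact ((adj_some_some hs).2 ⟨h4, h, h', hadj⟩).reachable
          rcases ih with ih | ih | ⟨x, hx, hx'⟩
          · exact absurd ih h'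
          · exact Or.inl (h3.trans ih)
          · exact Or.inr ⟨x, h3.trans hx, hx'⟩
  rcases gen u hy with h | h | h
  · exact absurd h hu
  · exact absurd h hn
  · exact h

open Classical in
theorem factC [Fintype A] {m : A → A → ℕ} {z : A → ℕ} {a : A} {t : Option A → ℕ}
    (hC : ∀ C : (Gr m z a).ConnectedComponent,
      2 * ∑ x ∈ univ.filter (fun x => (Gr m z a).connectedComponentMk x = C), t x ≤
        ∑ x ∈ univ.filter (fun x => (Gr m z a).connectedComponentMk x = C), ends m z a x)
    {x y : Option A} (hxy : (Gr m z a).Reachable x y) (hx : 0 < ends m z a x) :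
    ∃ x', (Gr m z a).Reachable x' y ∧ t x' < ends m z a x' := by
  have h1 := hC ((Gr m z a).connectedComponentMk y)
  have h2 : 0 < ∑ x ∈ univ.filter (fun x => (Gr m z a).connectedComponentMk x =
      (Gr m z a).connectedComponentMk y), ends m z a x := by
    refine lt_of_lt_of_le hx (Finset.single_le_sum (f := fun x => ends m z a x)
      (fun _ _ => Nat.zero_le _) ?_)
    rw [Finset.mem_filter]
    exact ⟨Finset.mem_univ _, SimpleGraph.ConnectedComponent.eq.2 hxy⟩
  obtain ⟨x', hx', hlt⟩ := Finset.exists_lt_of_sum_lt (s := univ.filter (fun x =>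
    (Gr m z a).connectedComponentMk x = (Gr m z a).connectedComponentMk y)) (f := t)
    (g := fun x => ends m z a x) (by omega)
  rw [Finset.mem_filter] at hx'
  exact ⟨x', SimpleGraph.ConnectedComponent.eq.1 hx'.2, hlt⟩

open Classical in
/-- LA/CON -/
theorem conn_split {A : Type} [Fintype A] (m : A → A → ℕ) (z : A → ℕ)
    (hs : ∀ u v, m u v = m v u) (hc : Conn m z) (a : A)
    (t : Option A → ℕ) (ht : ∀ x, t x ≤ ends m z a x) (h2 : 0 < ∑ x, t x)
    (hC : ∀ C : (Gr m z a).ConnectedComponent,
      2 * ∑ x ∈ univ.filter (fun x => (Gr m z a).connectedComponentMk x = C), t x ≤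
        ∑ x ∈ univ.filter (fun x => (Gr m z a).connectedComponentMk x = C), ends m z a x) :
    Conn (mNew m a t) (zNew z a t) := by
  -- the vertices in the component of the outer vertex
  have hA : ∀ u, (Gr m z a).Reachable (some u) none →
      Good (mNew m a t) (zNew z a t) (some u) := fun u hu =>
    (transfer hs hu (Or.inl rfl)).resolve_left (Option.some_ne_none u)
  -- the vertex a
  have ga : Good (mNew m a t) (zNew z a t) (some a) := by
    obtain ⟨x, hx, hx'⟩ := factD hs hc a
    obtain ⟨y, hy, hy'⟩ := factC hC hx hx'
    cases y with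
    | none =>
      refine Good.refl ?_
      show 0 < if a = a then z a - t none else z a
      rw [if_pos rfl]
      exact Nat.sub_pos_of_lt hy'
    | some u =>
      have hu : u ≠ a := by
        rintro rfl
        exact absurd (reach_a hs hy) (Option.some_ne_none u).symm
      refine Good.step ?_ (hA u hy)
      show 0 < if a = a then (if u = a then m a a - 2 * t (some a) else m a u - t (some u))
        else if u = a then m a a - t (some a) else m a u
      rw [if_pos rfl, if_neg hu]
      exact Nat.sub_pos_of_lt hy'
  -- the other old vertices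
  have gu : ∀ u, Good (mNew m a t) (zNew z a t) (some u) := by
    intro u
    by_cases hu : u = a
    · rw [hu]; exact ga
    by_cases hn : (Gr m z a).Reachable (some u) none
    · exact hA u hn
    obtain ⟨x, hx, hx'⟩ := factE hs hc a u hu hn
    obtain ⟨y, hy, hy'⟩ := factC hC hx.symm hx'
    cases y with
    | none => exact absurd hy.symm hn
    | some v =>
      have hv : v ≠ a := by
        rintro rfl
        exact hu (Option.some.inj (reach_a hs hy))
      have gv : Good (mNew m a t) (zNew z a t) (some v) := by
        refine Good.step ?_ ga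
        show 0 < if v = a then (if a = a then m a a - 2 * t (some a) else m a a - t (some a))
          else if a = a then m v a - t (some v) else m v a
        rw [if_neg hv, if_pos rfl, hs]
        exact Nat.sub_pos_of_lt hy'
      exact (transfer hs hy.symm (Or.inr gv)).resolve_left (Option.some_ne_none u)
  intro x
  cases x with
  | some u => exact gu u
  | none =>
    obtain ⟨x, _, hx⟩ := Finset.exists_ne_zero_of_sum_ne_zero h2.ne'
    cases x with
    | none => exact Good.refl (Nat.pos_of_ne_zero hx)
    | some u => exact Good.step (y := some u) (Nat.pos_of_ne_zero hx) (gu u)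

end Pool.Agent.N221.LACONN_SPLIT
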