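import Pool.Agent.N308.LS.Stm2
import Pool.Agent.N950.LS_NUM

set_option autoImplicit false

/-! # Project LS: upper bound for the energy of the hexagonal lattice above the self-dual point -/

namespace Pool.Agent.N221.LSSplit

open Pool.Agent.TH478.CE Pool.Agent.N950.LSNum

theorem pc_lower : 3.627598 ≤ Real.pi * c3 := by
  have h1 := Real.pi_gt_d20
  have h2 : √3 ≤ 1.73205081 := by
    rw [Real.sqrt_le_left (by norm_num)]
    norm_num
  have h3 : 0 < √3 := Real.sqrt_pos.2 (by norm_num)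
  unfold c3
  rw [← mul_div_assoc, le_div_iff₀ h3]
  nlinarith

theorem r_le' : r ≤ 0.02658 := by
  have h1 : Real.exp (3.627598 : ℝ) = Real.exp 1 ^ 3 * Real.exp 0.627598 := by
    rw [← Real.exp_nat_mul, ← Real.exp_add]
    congr 1
    norm_num
  have h2 := Real.exp_one_gt_d9
  have h3 : (1.8731059 : ℝ) ≤ Real.exp 0.627598 := by
    have h := Real.sum_le_exp_of_nonneg (x := 0.627598) (by norm_num) 10
    refine le_trans ?_ h
    norm_num [Finset.sum_range_succ, Nat.factorial]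
  have h4 : (20.0855369 : ℝ) ≤ Real.exp 1 ^ 3 := by
    have : (2.7182818283 : ℝ) ^ 3 ≤ Real.exp 1 ^ 3 := pow_le_pow_left₀ (by norm_num) h2.le 3
    refine le_trans ?_ this
    norm_num
  have h5 : (37.62228 : ℝ) ≤ Real.exp 3.627598 := by
    rw [h1]
    calc (37.62228 : ℝ) ≤ 20.0855369 * 1.8731059 := by norm_num
      _ ≤ Real.exp 1 ^ 3 * Real.exp 0.627598 := mul_le_mul h4 h3 (by norm_num) (by positivity)
  have h6 : r ≤ Real.exp (-3.627598) := Real.exp_le_exp.2 (by linarith [pc_lower])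
  refine h6.trans ?_
  rw [Real.exp_neg, inv_le_comm₀ (Real.exp_pos _) (by norm_num)]
  refine le_trans ?_ h5
  norm_num

theorem s_le' : s ≤ 0.16304 := by
  have h1 := s_sq
  have h2 := r_le'
  have h3 := s_pos
  by_contra hcon
  push Not at hcon
  nlinarith

/-- the energy at the self-dual point without the six minimal vectors -/
theorem num' : Th Real.pi - 1 - 6 * r ≤ 0.0001164 := by
  have h1 := Th_le
  have h2 := A_le
  have h3 := w_hasSum.tsum_eq
  have hs := s_le'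
  have hs0 := s_pos
  have hr := r_le'
  have hr0 := r_pos
  have hA1 : 1 + s + s ^ 4 ≤ ∑' n : ℕ, s ^ (n ^ 2) := by
    have := A_sum.sum_le_tsum (Finset.range 3) fun n _ => pow_nonneg hs0.le _
    simpa [Finset.sum_range_succ] using this
  have h9 : s ^ 9 / (1 - s) ≤ 0.0000000973 := by
    rw [div_le_iff₀ (by linarith)]
    have : s ^ 9 ≤ 0.16304 ^ 9 := pow_le_pow_left₀ hs0.le hs 9
    have e : (0.16304 : ℝ) ^ 9 ≤ 0.0000000814044 := by norm_num
    linarith
  have hs4 : s ^ 4 ≤ 0.16304 ^ 4 := pow_le_pow_left₀ hs0.le hs 4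
  have e4 : (0.16304 : ℝ) ^ 4 ≤ 0.00070661 := by norm_num
  have hr3 : r ^ 3 ≤ 0.02658 ^ 3 := pow_le_pow_left₀ hr0.le hr 3
  have hr4 : r ^ 4 ≤ 0.02658 ^ 4 := pow_le_pow_left₀ hr0.le hr 4
  have hr7 : r ^ 7 ≤ 0.02658 ^ 7 := pow_le_pow_left₀ hr0.le hr 7
  have hr12 : r ^ 12 ≤ 0.02658 ^ 12 := pow_le_pow_left₀ hr0.le hr 12
  obtain ⟨θ, hθ⟩ : ∃ θ : ℝ, θ = ∑' j, w j := ⟨_, rfl⟩
  rw [← hθ] at h1 h3
  have ht0 : 0 ≤ θ - (1 + 2 * s + 2 * s ^ 4) := by rw [h3]; linarith
  have ht1 : θ - (1 + 2 * s + 2 * s ^ 4) ≤ 0.0000001946 := by rw [h3]; linarith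
  have ht2 : θ + (1 + 2 * s + 2 * s ^ 4) ≤ 2.656 := by rw [h3]; linarith
  have ht3 : 0 ≤ θ + (1 + 2 * s + 2 * s ^ 4) := by rw [h3]; have := pow_pos hs0 4; linarith
  have ht4 : θ ^ 2 - (1 + 2 * s + 2 * s ^ 4) ^ 2 ≤ 0.00000053 := by
    have : θ ^ 2 - (1 + 2 * s + 2 * s ^ 4) ^ 2 =
        (θ - (1 + 2 * s + 2 * s ^ 4)) * (θ + (1 + 2 * s + 2 * s ^ 4)) := by ring
    rw [this]
    calc (θ - (1 + 2 * s + 2 * s ^ 4)) * (θ + (1 + 2 * s + 2 * s ^ 4)) ≤ 0.0000001946 * 2.656 :=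
          mul_le_mul ht1 ht2 ht3 (by norm_num)
      _ ≤ 0.00000053 := by norm_num
  norm_num at hr3 hr4 hr7 hr12 ht4 ⊢
  linarith

/-- zero and the six minimal vectors -/
def S7 : Finset (ℤ × ℤ) := {(0, 0), (1, 0), (-1, 0), (0, 1), (0, -1), (1, -1), (-1, 1)}

theorem three_le_qf {p : ℤ × ℤ} (hp : p ∉ S7) : 3 ≤ qf p := by
  obtain ⟨j, l⟩ := p
  have h2 : qf (j, l) = ((j ^ 2 + j * l + l ^ 2 : ℤ) : ℝ) := by
    unfold qf
    push_cast
    ring
  rw [h2]
  have h3 : 3 ≤ j ^ 2 + j * l + l ^ 2 := by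
    by_contra hc
    push Not at hc
    have hj1 : j < 2 := by nlinarith [sq_nonneg (2 * l + j)]
    have hj2 : -2 < j := by nlinarith [sq_nonneg (2 * l + j)]
    have hl1 : l < 2 := by nlinarith [sq_nonneg (2 * j + l)]
    have hl2 : -2 < l := by nlinarith [sq_nonneg (2 * j + l)]
    apply hp
    unfold S7
    interval_cases j <;> interval_cases l <;> simp_all
  exact_mod_cast h3

theorem Th_split {a : ℝ} (ha : 0 < a) : Th a = 1 + 6 * Real.exp (-a * c3) +
    ∑' p : ↥((↑S7 : Set (ℤ × ℤ))ᶜ), Real.exp (-a * (c3 * qf p)) := by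
  have hs := summable_Th ha
  have h := hs.sum_add_tsum_compl (s := S7)
  have h3 : ∑ p ∈ S7, Real.exp (-a * (c3 * qf p)) = 1 + 6 * Real.exp (-a * c3) := by
    unfold S7
    rw [Finset.sum_insert (by decide), Finset.sum_insert (by decide), Finset.sum_insert (by decide),
      Finset.sum_insert (by decide), Finset.sum_insert (by decide), Finset.sum_insert (by decide),
      Finset.sum_singleton]
    unfold qf
    norm_num
    ring
  rw [h3] at h
  exact h.symm

theorem split : Pool.Agent.N308.LS.S_SPLIT := by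
  intro x hx
  have hpi := Real.pi_pos
  have hc := c3_pos
  have ha : 0 < Real.pi * x := by positivity
  have h1 := Th_split ha
  have h2 := Th_split hpi
  have h3 := Th_eq ha
  have hs1 := (summable_Th ha).subtype ((↑S7 : Set (ℤ × ℤ))ᶜ)
  have hs2 := (summable_Th hpi).subtype ((↑S7 : Set (ℤ × ℤ))ᶜ)
  have h4 : ∑' p : ↥((↑S7 : Set (ℤ × ℤ))ᶜ), Real.exp (-(Real.pi * x) * (c3 * qf p)) ≤
      (∑' p : ↥((↑S7 : Set (ℤ × ℤ))ᶜ), Real.exp (-Real.pi * (c3 * qf p))) *
        Real.exp (-(3 * (Real.pi * c3)) * (x - 1)) := by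
    rw [← tsum_mul_right]
    refine Summable.tsum_le_tsum (fun p => ?_) hs1 (hs2.mul_right _)
    rw [← Real.exp_add]
    apply Real.exp_le_exp.2
    have h5 := three_le_qf (p := p.1) (fun h => p.2 (Finset.mem_coe.2 h))
    have h6 : 0 ≤ Real.pi * c3 * (x - 1) := by
      have : 0 ≤ x - 1 := by linarith
      positivity
    nlinarith [mul_nonneg h6 (sub_nonneg.2 h5)]
  have h5 : ∑' p : ↥((↑S7 : Set (ℤ × ℤ))ᶜ), Real.exp (-Real.pi * (c3 * qf p)) ≤ 0.0001164 := by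
    have h6 := num'
    have h7 : Real.exp (-Real.pi * c3) = r := by
      unfold r
      congr 1
      ring
    rw [h2, h7] at h6
    linarith
  have h6 : Real.exp (-(Real.pi * x) * c3) = r * Real.exp (-(Real.pi * c3) * (x - 1)) := by
    unfold r
    rw [← Real.exp_add]
    congr 1
    ring
  have h7 : En (Real.pi * x) = 6 * Real.exp (-(Real.pi * x) * c3) +
      ∑' p : ↥((↑S7 : Set (ℤ × ℤ))ᶜ), Real.exp (-(Real.pi * x) * (c3 * qf p)) := by
    linarith
  rw [h7, h6]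
  have h8 := Real.exp_pos (-(Real.pi * c3) * (x - 1))
  have h9 := Real.exp_pos (-(3 * (Real.pi * c3)) * (x - 1))
  have h10 := r_le'
  have h11 : r * Real.exp (-(Real.pi * c3) * (x - 1)) ≤
      0.02658 * Real.exp (-(Real.pi * c3) * (x - 1)) := mul_le_mul_of_nonneg_right h10 h8.le
  have h12 := mul_le_mul_of_nonneg_right h5 h9.le
  linarith

end Pool.Agent.N221.LSSplit
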