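import Mathlib
import Pool.Agent.N964.MX.Defs
import Pool.Agent.N967.Fejer

/-! # The explicit formula with an exponential test function (project MX, part A) -/

set_option autoImplicit false
set_option maxHeartbeats 2000000
open Complex Filter Topology Set MeasureTheory
open scoped ComplexConjugate

namespace Pool.Agent.N221.MXA

open Pool.Agent.N967.FJ
open Pool.Agent.Y23
open Pool.Agent.N964.MX

/-- the test function -/
noncomputable def fe (a s t : ℝ) (x : ℝ) : ℂ := gI a x * cexp ((-((s : ℂ) + t * I)) * x)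

lemma Fa_fe (a s t : ℝ) : Fa a (fe a s t) := (Fa_gI a).mul_bdd (by fun_prop)

/-- the kernel -/
noncomputable def KE (a s u : ℝ) : ℝ := 2 * (Real.cosh (2 * a * s) - Real.cos (2 * a * u)) / (s ^ 2 + u ^ 2)

lemma TT_gI_int {a : ℝ} (ha : 0 < a) (w : ℂ) : TT (gI a) w = ∫ x in (-a)..a, cexp (w * x) := by
  unfold TT
  rw [intervalIntegral.integral_of_le (by linarith), ← integral_Icc_eq_integral_Ioc,
    ← integral_indicator measurableSet_Icc]
  congr 1
  funext x
  unfold gI
  by_cases h : x ∈ Icc (-a) a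
  · rw [indicator_of_mem h, indicator_of_mem h, one_mul]
  · rw [indicator_of_notMem h, indicator_of_notMem h, zero_mul]

lemma TT_gI_eq {a : ℝ} (ha : 0 < a) {w : ℂ} (hw : w ≠ 0) :
    TT (gI a) w = (cexp (w * a) - cexp (-(w * a))) / w := by
  rw [TT_gI_int ha, integral_exp_mul_complex hw]
  congr 3
  push_cast; ring

lemma TT_fe (a s t : ℝ) (w : ℂ) : TT (fe a s t) w = TT (gI a) (w - (s + t * I)) := by
  have h := TT_mul_exp (gI a) (-((s : ℂ) + t * I)) w
  rw [show (-((s : ℂ) + t * I) + w) = w - (s + t * I) by ring] at h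
  exact h

lemma norm_diff (x y : ℝ) : ‖cexp ((x : ℂ) + y * I) - cexp (-((x : ℂ) + y * I))‖ ^ 2 =
    2 * (Real.cosh (2 * x) - Real.cos (2 * y)) := by
  rw [← Complex.normSq_eq_norm_sq, Complex.normSq_apply]
  have e1 : (cexp ((x : ℂ) + y * I)).re = Real.exp x * Real.cos y := by
    rw [Complex.exp_re]; simp
  have e2 : (cexp ((x : ℂ) + y * I)).im = Real.exp x * Real.sin y := by
    rw [Complex.exp_im]; simp
  have e3 : (cexp (-((x : ℂ) + y * I))).re = Real.exp (-x) * Real.cos y := by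
    rw [Complex.exp_re]; simp
  have e4 : (cexp (-((x : ℂ) + y * I))).im = -(Real.exp (-x) * Real.sin y) := by
    rw [Complex.exp_im]; simp
  rw [Complex.sub_re, Complex.sub_im, e1, e2, e3, e4, Real.cosh_two_mul, Real.cos_two_mul',
    Real.cosh_eq, Real.sinh_eq]
  have h1 := Real.sin_sq_add_cos_sq y
  have h2 : Real.exp x * Real.exp (-x) = 1 := by rw [← Real.exp_add]; simp
  set A := Real.exp x
  set B := Real.exp (-x)
  set c := Real.cos y
  set d := Real.sin y
  have h3 : d ^ 2 = 1 - c ^ 2 := by linarith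
  nlinarith [h1, h2, h3]

lemma norm_TT_fe {a s : ℝ} (ha : 0 < a) (hs : 0 < s) (t v : ℝ) :
    ‖TT (fe a s t) (v * I)‖ ^ 2 = KE a s (v - t) := by
  have hw : ((v : ℂ) * I - (s + t * I)) ≠ 0 := by
    intro h
    have := congrArg Complex.re h
    simp at this
    exact hs.ne' this
  rw [TT_fe, TT_gI_eq ha hw, norm_div, div_pow]
  have e1 : ((v : ℂ) * I - (s + t * I)) * a = ((-(a * s) : ℝ) : ℂ) + ((a * (v - t) : ℝ) : ℂ) * I := by
    push_cast; ring
  rw [e1, norm_diff]
  unfold KE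
  have e2 : ‖((v : ℂ) * I - (s + t * I))‖ ^ 2 = s ^ 2 + (v - t) ^ 2 := by
    rw [← Complex.normSq_eq_norm_sq, Complex.normSq_apply]
    simp
    ring
  rw [e2]
  congr 3
  · rw [show 2 * (-(a * s)) = -(2 * a * s) by ring, Real.cosh_neg]
  · congr 1; ring

lemma KE_nonneg (a s u : ℝ) : 0 ≤ KE a s u := by
  unfold KE
  have h1 := Real.one_le_cosh (2 * a * s)
  have h2 := Real.cos_le_one (2 * a * u)
  apply div_nonneg
  · linarith
  · positivity

lemma KE_lower (a s u : ℝ) : (Real.cosh (2 * a * s) - 1) * (2 / (s ^ 2 + u ^ 2)) ≤ KE a s u := by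
  unfold KE
  have h2 := Real.cos_le_one (2 * a * u)
  rw [mul_div_assoc']
  apply div_le_div_of_nonneg_right _ (by positivity)
  nlinarith

lemma KE_le (a s u : ℝ) (hu : 1 ≤ |u|) : KE a s u ≤ Real.cosh (2 * a * s) * (16 / (1 + |u|) ^ 2) := by
  unfold KE
  have h1 := Real.one_le_cosh (2 * a * s)
  have h2 := Real.neg_one_le_cos (2 * a * u)
  have h3 : u ^ 2 = |u| ^ 2 := (sq_abs u).symm
  rw [h3, mul_div_assoc', div_le_div_iff₀ (by positivity) (by positivity)]
  have h4 : (1 + |u|) ^ 2 ≤ 4 * |u| ^ 2 := by nlinarith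
  have h5 : 2 * (Real.cosh (2 * a * s) - Real.cos (2 * a * u)) ≤ 4 * Real.cosh (2 * a * s) := by linarith
  have h6 : 0 ≤ 2 * (Real.cosh (2 * a * s) - Real.cos (2 * a * u)) := by
    have := Real.cos_le_one (2 * a * u)
    linarith
  calc _ ≤ (4 * Real.cosh (2 * a * s)) * (4 * |u| ^ 2) := mul_le_mul h5 h4 (by positivity) (by positivity)
    _ ≤ _ := by nlinarith [mul_nonneg (by positivity : 0 ≤ Real.cosh (2 * a * s)) (sq_nonneg s)]

lemma log_KE (a s u : ℝ) : Real.log (1 + |u|) * KE a s u ≤ KE a s u + Real.cosh (2 * a * s) * hF u := by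
  have h0 := KE_nonneg a s u
  have h9 := hF_nonneg u
  have hc := Real.cosh_pos (2 * a * s)
  rcases le_total |u| 1 with h | h
  · have h1 : Real.log (1 + |u|) ≤ 1 := by
      have h2 := Real.log_le_sub_one_of_pos (x := 1 + |u|) (by positivity)
      linarith
    nlinarith [mul_nonneg hc.le h9]
  · have h1 : Real.log (1 + |u|) ≤ 2 * (1 + |u|) ^ (1 / 2 : ℝ) := by
      have h2 := Real.log_le_rpow_div (x := 1 + |u|) (by positivity) (ε := 1 / 2) (by norm_num)
      calc _ ≤ _ := h2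
        _ = _ := by ring
    have h2 : KE a s u ≤ Real.cosh (2 * a * s) * (16 * (1 + |u|) ^ (-2 : ℝ)) := by
      refine (KE_le a s u h).trans (le_of_eq ?_)
      have e : (1 + |u|) ^ (-2 : ℝ) = 1 / (1 + |u|) ^ 2 := by
        rw [Real.rpow_neg (by positivity)]
        norm_num
      rw [e]; ring
    have h3 : 0 ≤ Real.log (1 + |u|) := Real.log_nonneg (by linarith [abs_nonneg u])
    calc Real.log (1 + |u|) * KE a s u
        ≤ (2 * (1 + |u|) ^ (1 / 2 : ℝ)) * (Real.cosh (2 * a * s) * (16 * (1 + |u|) ^ (-2 : ℝ))) :=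
          mul_le_mul h1 h2 h0 (by positivity)
      _ = Real.cosh (2 * a * s) * hF u := by
          unfold hF
          rw [show (-(3 / 2) : ℝ) = 1 / 2 + (-2) by norm_num, Real.rpow_add (by positivity)]
          ring
      _ ≤ _ := by linarith

lemma N2_fe {a s : ℝ} (ha : 0 < a) (hs : 0 < s) (t : ℝ) : N2 (fe a s t) = Real.sinh (2 * a * s) / s := by
  unfold N2
  have e : (fun x => ‖fe a s t x‖ ^ 2) = (Icc (-a) a).indicator (fun x => Real.exp (-(2 * s) * x)) := by
    funext x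
    unfold fe gI
    by_cases h : x ∈ Icc (-a) a
    · rw [indicator_of_mem h, indicator_of_mem h, one_mul, Complex.norm_exp, ← Real.exp_nat_mul]
      congr 1
      simp
      ring
    · rw [indicator_of_notMem h, indicator_of_notMem h, zero_mul]; norm_num
  rw [e, integral_indicator measurableSet_Icc, integral_Icc_eq_integral_Ioc,
    ← intervalIntegral.integral_of_le (by linarith)]
  have hs2 : -(2 * s) ≠ 0 := by
    intro h; linarith
  rw [intervalIntegral.integral_comp_mul_left (fun y => Real.exp y) hs2, integral_exp, Real.sinh_eq, smul_eq_mul]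
  rw [show -(2 * s) * a = -(2 * a * s) by ring, show -(2 * s) * -a = 2 * a * s by ring]
  field_simp
  ring

lemma KE_int {a s : ℝ} (ha : 0 < a) (hs : 0 < s) (t : ℝ) : Integrable (fun v => KE a s (v - t)) := by
  refine (int_TT_sq (Fa_fe a s t)).congr (Eventually.of_forall fun v => ?_)
  exact norm_TT_fe ha hs t v

lemma KE_integral {a s : ℝ} (ha : 0 < a) (hs : 0 < s) (t : ℝ) :
    ∫ v, KE a s (v - t) = 2 * Real.pi * (Real.sinh (2 * a * s) / s) := by
  have h := plancherel (Fa_fe a s t)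
  rw [N2_fe ha hs] at h
  rw [← h]
  refine integral_congr_ae (Eventually.of_forall fun v => ?_)
  exact (norm_TT_fe ha hs t v).symm

lemma Lg_KE (a s t v : ℝ) :
    Lg v * KE a s (v - t) ≤ (Lg t + 1) * KE a s (v - t) + Real.cosh (2 * a * s) * hF (v - t) := by
  have h1 := Lg_le t v
  have h2 := log_KE a s (v - t)
  have h3 := KE_nonneg a s (v - t)
  nlinarith [mul_le_mul_of_nonneg_right h1 h3]

lemma maj_int {a s : ℝ} (ha : 0 < a) (hs : 0 < s) (t c d : ℝ) :
    Integrable (fun v => c * KE a s (v - t) + d * hF (v - t)) :=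
  ((KE_int ha hs t).const_mul c).add ((hF_int.comp_sub_right t).const_mul d)

lemma Hd_fe {a s : ℝ} (ha : 0 < a) (hs : 0 < s) (t : ℝ) : Hd a (fe a s t) := by
  refine ⟨Fa_fe a s t, ?_⟩
  refine (maj_int ha hs t (Lg t + 1) (Real.cosh (2 * a * s))).mono'
    (LL_cont (Fa_fe a s t)).aestronglyMeasurable (Eventually.of_forall fun v => ?_)
  rw [Real.norm_eq_abs, abs_of_nonneg (mul_nonneg (Lg_pos v).le (sq_nonneg _)), norm_TT_fe ha hs]
  exact Lg_KE a s t v

lemma arch_le {a s C : ℝ} (ha : 0 < a) (hs : 0 < s) (hC : ∀ y : ℝ, DG y ≤ Lg y + C) (t : ℝ) :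
    ∫ v : ℝ, DG v * ‖TT (fe a s t) (v * I)‖ ^ 2 ≤
      (Lg t + 1 + C) * (2 * Real.pi * (Real.sinh (2 * a * s) / s)) +
        Real.cosh (2 * a * s) * ∫ v, hF v := by
  obtain ⟨C', _, hDG⟩ := DG_bd
  have hi : Integrable (fun v : ℝ => DG v * ‖TT (fe a s t) (v * I)‖ ^ 2) := by
    refine ((Hd_fe ha hs t).2.const_mul C').mono' ?_ (Eventually.of_forall fun v => ?_)
    · exact (DG_cont.mul ((TT_line_cont (Fa_fe a s t)).norm.pow 2)).aestronglyMeasurable
    · rw [norm_mul, Real.norm_eq_abs, Real.norm_eq_abs,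
        abs_of_nonneg (sq_nonneg ‖TT (fe a s t) (v * I)‖), ← mul_assoc]
      exact mul_le_mul_of_nonneg_right (hDG v) (sq_nonneg _)
  have h1 : ∫ v : ℝ, DG v * ‖TT (fe a s t) (v * I)‖ ^ 2 ≤
      ∫ v : ℝ, ((Lg t + 1 + C) * KE a s (v - t) + Real.cosh (2 * a * s) * hF (v - t)) := by
    refine integral_mono hi (maj_int ha hs t _ _) fun v => ?_
    simp only
    rw [norm_TT_fe ha hs]
    have h2 := Lg_KE a s t v
    have h3 := KE_nonneg a s (v - t)
    have h4 := mul_le_mul_of_nonneg_right (hC v) h3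
    linarith
  refine h1.trans (le_of_eq ?_)
  rw [integral_add ((KE_int ha hs t).const_mul _) ((hF_int.comp_sub_right t).const_mul _),
    integral_const_mul, KE_integral ha hs, integral_const_mul, integral_sub_right_eq_self hF t]

lemma norm_TT_real {a s : ℝ} (ha : 0 < a) (hs : 0 < s) {t : ℝ} (ht : 1 ≤ |t|) (c : ℝ) (hc : |c| = 1 / 2) :
    ‖TT (fe a s t) (c : ℂ)‖ ≤ 2 * Real.exp (a * (s + 1 / 2)) / |t| := by
  have ht0 : 0 < |t| := by linarith
  have htne : t ≠ 0 := abs_pos.1 ht0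
  have hz : ((c : ℂ) - (s + t * I)) ≠ 0 := by
    intro h
    have := congrArg Complex.im h
    simp at this
    exact htne this
  have hn : |t| ≤ ‖((c : ℂ) - (s + t * I))‖ := by
    have h1 := Complex.abs_im_le_norm ((c : ℂ) - (s + t * I))
    have e : ((c : ℂ) - (s + t * I)).im = -t := by simp
    rw [e, abs_neg] at h1
    exact h1
  have hca := abs_le.1 hc.le
  rw [TT_fe, TT_gI_eq ha hz, norm_div]
  have h1 : ‖cexp (((c : ℂ) - (s + t * I)) * a)‖ ≤ Real.exp (a * (s + 1 / 2)) := by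
    rw [Complex.norm_exp, Real.exp_le_exp]
    simp
    nlinarith [hca.1, hca.2]
  have h2 : ‖cexp (-(((c : ℂ) - (s + t * I)) * a))‖ ≤ Real.exp (a * (s + 1 / 2)) := by
    rw [Complex.norm_exp, Real.exp_le_exp]
    simp
    nlinarith [hca.1, hca.2]
  have h3 : ‖cexp (((c : ℂ) - (s + t * I)) * a) - cexp (-(((c : ℂ) - (s + t * I)) * a))‖ ≤
      2 * Real.exp (a * (s + 1 / 2)) := by
    calc _ ≤ _ := norm_sub_le _ _
      _ ≤ _ := by linarith
  exact div_le_div₀ (by positivity) h3 ht0 hn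

lemma pole_le {a s : ℝ} (ha : 0 < a) (hs : 0 < s) {t : ℝ} (ht : 1 ≤ |t|) :
    2 * (TT (fe a s t) (1 / 2) * conj (TT (fe a s t) (-(1 / 2)))).re ≤
      8 * (Real.exp (2 * a * s) * (Real.exp a / t ^ 2)) := by
  have h1 := norm_TT_real ha hs ht (1 / 2) (by norm_num)
  have h2 := norm_TT_real ha hs ht (-(1 / 2)) (by norm_num)
  have e1 : (((1 / 2 : ℝ)) : ℂ) = 1 / 2 := by push_cast; ring
  have e2 : (((-(1 / 2) : ℝ)) : ℂ) = -(1 / 2) := by push_cast; ring
  rw [e1] at h1
  rw [e2] at h2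
  have ht0 : 0 < |t| := by linarith
  have h3 := Complex.re_le_norm (TT (fe a s t) (1 / 2) * conj (TT (fe a s t) (-(1 / 2))))
  rw [norm_mul, RCLike.norm_conj] at h3
  have h4 : ‖TT (fe a s t) (1 / 2)‖ * ‖TT (fe a s t) (-(1 / 2))‖ ≤
      (2 * Real.exp (a * (s + 1 / 2)) / |t|) * (2 * Real.exp (a * (s + 1 / 2)) / |t|) :=
    mul_le_mul h1 h2 (norm_nonneg _) (by positivity)
  have h5 : (2 * Real.exp (a * (s + 1 / 2)) / |t|) * (2 * Real.exp (a * (s + 1 / 2)) / |t|) =
      4 * (Real.exp (2 * a * s) * (Real.exp a / t ^ 2)) := by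
    rw [div_mul_div_comm, ← sq |t|, sq_abs]
    have : Real.exp (2 * a * s) * Real.exp a = Real.exp (a * (s + 1 / 2)) * Real.exp (a * (s + 1 / 2)) := by
      rw [← Real.exp_add, ← Real.exp_add]; congr 1; ring
    rw [← mul_div_assoc, this]; ring
  linarith

/-! ### the sum over the primes -/

lemma corr_eq {a s : ℝ} (hs : 0 < s) (t L : ℝ) (h0 : 0 ≤ L) (h1 : L ≤ 2 * a) :
    (∫ x : ℝ, fe a s t (x + L) * conj (fe a s t x)).re =
      Real.sinh (s * (2 * a - L)) / s * Real.cos (t * L) := by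
  have e : (fun x : ℝ => fe a s t (x + L) * conj (fe a s t x)) =
      (Icc (-a) (a - L)).indicator (fun x => cexp (-((s : ℂ) + t * I) * L) * ((Real.exp (-(2 * s) * x) : ℝ) : ℂ)) := by
    funext x
    unfold fe gI
    by_cases hx : x ∈ Icc (-a) (a - L)
    · rw [indicator_of_mem hx]
      rw [mem_Icc] at hx
      have m1 : x + L ∈ Icc (-a) a := by rw [mem_Icc]; constructor <;> linarith
      have m2 : x ∈ Icc (-a) a := by rw [mem_Icc]; constructor <;> linarith
      rw [indicator_of_mem m1, indicator_of_mem m2, one_mul, one_mul, ← Complex.exp_conj, ← Complex.exp_add,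
        Complex.ofReal_exp, ← Complex.exp_add]
      congr 1
      simp
      ring
    · rw [indicator_of_notMem hx]
      by_cases m2 : x ∈ Icc (-a) a
      · have m1 : x + L ∉ Icc (-a) a := by
          rw [mem_Icc] at m2 hx ⊢
          intro h
          exact hx ⟨m2.1, by linarith [h.2]⟩
        rw [indicator_of_notMem m1]
        simp
      · rw [indicator_of_notMem m2]
        simp
  rw [e, integral_indicator measurableSet_Icc, integral_Icc_eq_integral_Ioc,
    ← intervalIntegral.integral_of_le (by linarith), intervalIntegral.integral_const_mul,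
    intervalIntegral.integral_ofReal]
  have hs2 : -(2 * s) ≠ 0 := by
    intro h; linarith
  rw [intervalIntegral.integral_comp_mul_left (fun y => Real.exp y) hs2, integral_exp, smul_eq_mul,
    Complex.re_mul_ofReal, Complex.exp_re]
  have e2 : (-((s : ℂ) + t * I) * L).re = -(s * L) := by simp
  have e3 : (-((s : ℂ) + t * I) * L).im = -(t * L) := by simp
  rw [e2, e3, Real.cos_neg, Real.sinh_eq]
  have e4 : Real.exp (s * (2 * a - L)) = Real.exp (-(s * L)) * Real.exp (-(2 * s) * -a) := by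
    rw [← Real.exp_add]; congr 1; ring
  have e5 : Real.exp (-(s * (2 * a - L))) = Real.exp (-(s * L)) * Real.exp (-(2 * s) * (a - L)) := by
    rw [← Real.exp_add]; congr 1; ring
  rw [e4, e5]
  field_simp
  ring

lemma prime_eq {l s : ℝ} (hl : 0 < l) (hs : 0 < s) (t : ℝ) :
    ∑ n ∈ Finset.Icc 1 ⌊Real.exp (2 * (l / 2))⌋₊, ArithmeticFunction.vonMangoldt n / Real.sqrt n *
        (∫ x : ℝ, fe (l / 2) s t (x + Real.log n) * conj (fe (l / 2) s t x)).re =
      (Real.cosh (l * s) - 1) / s * PS l t (kk l s) := by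
  have hc : 0 < Real.cosh (l * s) - 1 := by
    have := Real.one_lt_cosh.2 (mul_pos hl hs).ne'
    linarith
  unfold PS
  rw [Finset.mul_sum, show 2 * (l / 2) = l by ring]
  refine Finset.sum_congr rfl fun n hn => ?_
  rw [Finset.mem_Icc] at hn
  have hn0 : (0 : ℝ) < n := by exact_mod_cast hn.1
  have hn1 : (1 : ℝ) ≤ n := by exact_mod_cast hn.1
  have h2 : (n : ℝ) ≤ Real.exp l := (Nat.le_floor_iff (Real.exp_pos _).le).1 hn.2
  have h3 : Real.log n ≤ 2 * (l / 2) := by
    rw [Real.log_le_iff_le_exp hn0, show 2 * (l / 2) = l by ring]; exact h2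
  rw [corr_eq hs t (Real.log n) (Real.log_nonneg hn1) h3, show 2 * (l / 2) = l by ring]
  unfold kk
  generalize Real.cosh (l * s) - 1 = c at hc ⊢
  field_simp

lemma cosh_sub_one_ge (x : ℝ) (hx : 0 < x) : x ^ 2 / 2 ≤ Real.cosh x - 1 := by
  have h1 : x / 2 ≤ Real.sinh (x / 2) := Real.self_le_sinh_iff.2 (by positivity)
  have h2 := Real.cosh_two_mul (x / 2)
  rw [show 2 * (x / 2) = x by ring] at h2
  have h3 := Real.cosh_sq (x / 2)
  nlinarith

lemma exp_le (x : ℝ) (hx : 0 < x) : Real.exp x ≤ (Real.cosh x - 1) * (2 + 4 / x ^ 2) := by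
  have h1 := cosh_sub_one_ge x hx
  have h2 : Real.exp x ≤ 2 * Real.cosh x := by
    rw [Real.cosh_eq]
    have := Real.exp_pos (-x)
    linarith
  have h3 : 1 ≤ (Real.cosh x - 1) * (2 / x ^ 2) := by
    rw [mul_div_assoc', le_div_iff₀ (by positivity)]
    linarith
  have e : (Real.cosh x - 1) * (2 + 4 / x ^ 2) = 2 * (Real.cosh x - 1) + 2 * ((Real.cosh x - 1) * (2 / x ^ 2)) := by
    ring
  rw [e]
  linarith

theorem ef_main : S_ef := by
  classical
  intro RH
  obtain ⟨C, hC0, hC⟩ := DG_upper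
  have hh : 0 ≤ ∫ v, hF v := integral_nonneg hF_nonneg
  set H : ℝ := ∫ v, hF v with hH
  refine ⟨1 + C + 2 * H + 64, by positivity, fun t s l ht hs hs2 hl hlt S hS => ?_⟩
  have hl0 : 0 < l := by linarith
  have ha : 0 < l / 2 := by positivity
  have e2a : 2 * (l / 2) = l := by ring
  have hx : 0 < l * s := mul_pos hl0 hs
  have hw := weil ha (Hd_fe ha hs t)
  have h1 := pole_le ha hs ht
  have h2 := arch_le ha hs hC t
  have h3 := prime_eq hl0 hs t
  rw [h3] at hw
  rw [e2a] at h1 h2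
  rw [← hH] at h2
  have hD : Dom (fe (l / 2) s t) := ((Hd_iff ha _).1 (Hd_fe ha hs t)).2
  have e1 : ∀ ρ : Zt, GG (fe (l / 2) s t) (fe (l / 2) s t) ((ρ : ℂ) - 1 / 2) =
      ((KE (l / 2) s ((ρ : ℂ).im - t) : ℝ) : ℂ) := by
    intro ρ
    rw [rh_line RH ρ.2, GG_line, norm_TT_fe ha hs]
  have hsum : Summable (fun ρ : Zt => (mu ρ : ℝ) * KE (l / 2) s ((ρ : ℂ).im - t)) := by
    refine hD.congr fun ρ => ?_
    have e : ((ρ : ℂ) - 1 / 2) = ((ρ : ℂ).im : ℂ) * I := by
      rw [rh_line RH ρ.2]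
      apply Complex.ext <;> simp
    rw [e, norm_TT_fe ha hs]
  have e2 : QQ (fe (l / 2) s t) = ∑' ρ : Zt, (mu ρ : ℝ) * KE (l / 2) s ((ρ : ℂ).im - t) := by
    unfold QQ
    refine tsum_congr fun ρ => ?_
    rw [e1, Complex.ofReal_re]
  have h4 : ∑ z ∈ S, (mu z : ℝ) * KE (l / 2) s (z.im - t) ≤ QQ (fe (l / 2) s t) := by
    rw [e2]
    have h5 := hsum.sum_le_tsum (S.subtype (fun s : ℂ => riemannZeta s = 0 ∧ 0 < s.re ∧ s.re < 1))
      (fun ρ _ => mul_nonneg (Nat.cast_nonneg _) (KE_nonneg _ _ _))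
    have h6 := Finset.sum_subtype_of_mem (s := S) (fun z : ℂ => (mu z : ℝ) * KE (l / 2) s (z.im - t))
      (p := fun s : ℂ => riemannZeta s = 0 ∧ 0 < s.re ∧ s.re < 1) hS
    rw [h6] at h5
    exact h5
  rw [hw] at h4
  set ch : ℝ := Real.cosh (l * s) - 1 with hch
  have hchge := cosh_sub_one_ge (l * s) hx
  rw [← hch] at hchge
  have hch0 : 0 < ch := by
    have : 0 < (l * s) ^ 2 / 2 := by positivity
    linarith
  have hcosh : Real.cosh (l * s) = ch + 1 := by rw [hch]; ring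
  have hex := exp_le (l * s) hx
  rw [← hch] at hex
  set R : ℝ := ∑ z ∈ S, (mu z : ℝ) * (2 * s / (s ^ 2 + (t - z.im) ^ 2)) with hR
  have hRle : ch / s * R ≤ ∑ z ∈ S, (mu z : ℝ) * KE (l / 2) s (z.im - t) := by
    rw [hR, Finset.mul_sum]
    refine Finset.sum_le_sum fun z _ => ?_
    have h5 := KE_lower (l / 2) s (z.im - t)
    rw [e2a, ← hch] at h5
    have h6 : (0 : ℝ) ≤ mu z := Nat.cast_nonneg _
    have e3 : ch / s * ((mu z : ℝ) * (2 * s / (s ^ 2 + (t - z.im) ^ 2))) =
        (mu z : ℝ) * (ch * (2 / (s ^ 2 + (z.im - t) ^ 2))) := by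
      rw [show (t - z.im) ^ 2 = (z.im - t) ^ 2 by ring]
      have : s ≠ 0 := hs.ne'
      have : s ^ 2 + (z.im - t) ^ 2 ≠ 0 := by positivity
      field_simp
    rw [e3]
    exact mul_le_mul_of_nonneg_left h5 h6
  have hpi := Real.pi_pos
  have h7 : 1 / (2 * Real.pi) * (∫ v : ℝ, DG v * ‖TT (fe (l / 2) s t) (v * I)‖ ^ 2) ≤
      (Lg t + 1 + C) * (Real.sinh (l * s) / s) + (ch + 1) * H := by
    have h8 : 1 / (2 * Real.pi) * (∫ v : ℝ, DG v * ‖TT (fe (l / 2) s t) (v * I)‖ ^ 2) ≤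
        1 / (2 * Real.pi) * ((Lg t + 1 + C) * (2 * Real.pi * (Real.sinh (l * s) / s)) +
          Real.cosh (l * s) * H) :=
      mul_le_mul_of_nonneg_left h2 (by positivity)
    have h9 : 1 / (2 * Real.pi) * ((Lg t + 1 + C) * (2 * Real.pi * (Real.sinh (l * s) / s)) +
          Real.cosh (l * s) * H) =
        (Lg t + 1 + C) * (Real.sinh (l * s) / s) + 1 / (2 * Real.pi) * ((ch + 1) * H) := by
      rw [hcosh]
      field_simp
    have h10 : 1 / (2 * Real.pi) * ((ch + 1) * H) ≤ (ch + 1) * H := by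
      have h11 : 1 / (2 * Real.pi) ≤ 1 := by
        rw [div_le_one (by positivity)]
        linarith [Real.pi_gt_three]
      have h12 : 0 ≤ (ch + 1) * H := by positivity
      nlinarith
    linarith
  have h8 : Real.exp (l / 2) / t ^ 2 ≤ 2 := by
    have ht2 : 0 < t ^ 2 := by
      rw [← sq_abs]; positivity
    rw [div_le_iff₀ ht2]
    have : |t| ≤ t ^ 2 := by rw [← sq_abs]; nlinarith
    linarith
  have h9 : 8 * (Real.exp (l * s) * (Real.exp (l / 2) / t ^ 2)) ≤ 16 * (ch * (2 + 4 / (l * s) ^ 2)) := by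
    have h10 : Real.exp (l * s) * (Real.exp (l / 2) / t ^ 2) ≤ (ch * (2 + 4 / (l * s) ^ 2)) * 2 :=
      mul_le_mul hex h8 (by positivity) (by positivity)
    linarith
  have h10 : (1 : ℝ) ≤ ch * (2 / (l * s) ^ 2) := by
    rw [mul_div_assoc', le_div_iff₀ (by positivity)]
    linarith
  have hsh : 0 < Real.sinh (l * s) := Real.sinh_pos_iff.2 hx
  -- the comparison
  have key : ch / s * R ≤ ch / s * ((Lg t + (1 + C + 2 * H + 64)) * (Real.sinh (l * s) / ch) +
      (1 + C + 2 * H + 64) + (1 + C + 2 * H + 64) / (l ^ 2 * s) - 2 * PS l t (kk l s)) := by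
    have e4 : ch / s * ((Lg t + (1 + C + 2 * H + 64)) * (Real.sinh (l * s) / ch) +
      (1 + C + 2 * H + 64) + (1 + C + 2 * H + 64) / (l ^ 2 * s) - 2 * PS l t (kk l s)) =
      (Lg t + 1 + C) * (Real.sinh (l * s) / s) + (2 * H + 64) * (Real.sinh (l * s) / s) +
        (1 + C + 2 * H + 64) * (ch / s) + (1 + C + 2 * H + 64) * (ch * (1 / (l * s) ^ 2)) -
          2 * (ch / s * PS l t (kk l s)) := by
      field_simp
      ring
    rw [e4]
    have h11 : 0 ≤ (2 * H + 64) * (Real.sinh (l * s) / s) := by positivity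
    have h12 : ch / 2 ≤ ch / s := div_le_div_of_nonneg_left hch0.le hs hs2
    have h13 : 0 ≤ ch * (1 / (l * s) ^ 2) := by positivity
    have h14 : (1 + C + 2 * H + 64) * (ch / 2) ≤ (1 + C + 2 * H + 64) * (ch / s) :=
      mul_le_mul_of_nonneg_left h12 (by positivity)
    have e5 : 16 * (ch * (2 + 4 / (l * s) ^ 2)) = 32 * ch + 64 * (ch * (1 / (l * s) ^ 2)) := by ring
    have e6 : ch * (2 / (l * s) ^ 2) = 2 * (ch * (1 / (l * s) ^ 2)) := by ring
    rw [e6] at h10
    rw [e5] at h9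
    set Y : ℝ := ch * (1 / (l * s) ^ 2) with hY
    have h15 : H ≤ H * (2 * Y) := by nlinarith
    have h16 : 0 ≤ C * ch := by positivity
    have h17 : 0 ≤ C * Y := by positivity
    nlinarith [h4, hRle, h1, h7, h9, h11, h14, h15, h16, h17]
  exact le_of_mul_le_mul_left key (by positivity)

end Pool.Agent.N221.MXA

namespace Pool.Agent.N221

/-- MX/A: the explicit formula with an exponential test function -/
theorem ef : Pool.Agent.N964.MX.S_ef := MXA.ef_main

end Pool.Agent.N221
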