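import Pool.Agent.N652.OM.Defs
import Pool.Agent.N652.OM.Stm

/-!
# Project OM, leaf MON (helper221 for helper652): the relations in the group
-/

set_option autoImplicit false

namespace Pool.Agent.N221.OM_MON

open Pool.Agent.N652.OM
open Pool.Agent.N44.NS (el)

noncomputable section

theorem hM_apply (v : Vc Bool) (w : ℤ × Bool) : (hM : MM Bool) v w = v (hv.symm w) := rfl

theorem hMi_apply (v : Vc Bool) (w : ℤ × Bool) : ((hM⁻¹ : (MM Bool)ˣ) : MM Bool) v w = v (hv w) :=
  rfl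

theorem hM_single (w : ℤ × Bool) (c : F) :
    (hM : MM Bool) (Finsupp.single w c) = Finsupp.single (hv w) c := by
  ext w'
  rw [hM_apply, Finsupp.single_apply, Finsupp.single_apply]
  by_cases h : hv w = w'
  · rw [if_pos h, if_pos (by rw [← h, Equiv.symm_apply_apply])]
  · rw [if_neg h, if_neg (fun h' => h (by rw [h', Equiv.apply_symm_apply]))]

theorem hv_true (j : ℤ) : ∃ j', hv (j, true) = (j', true) := by
  by_cases h : 0 ≤ j
  · exact ⟨j + 1, if_pos h⟩
  · exact ⟨j, if_neg h⟩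

theorem conj_RR (hC : S_CONJ) {a : MM Bool} (ha : a ∈ RR false) :
    ((hM⁻¹ : (MM Bool)ˣ) : MM Bool) * a * (hM : MM Bool) ∈ RR false := by
  obtain ⟨⟨p, hp⟩, h1, h2⟩ := ha
  refine ⟨⟨p, (hC a p hp).2⟩, fun j => ?_, fun v j => ?_⟩
  · rw [Module.End.mul_apply, Module.End.mul_apply, hM_single]
    obtain ⟨j', hj'⟩ := hv_true j
    have e : hv (j, !false) = (j', !false) := hj'
    rw [e, h1, map_zero]
  · rw [Module.End.mul_apply, Module.End.mul_apply, hMi_apply]
    obtain ⟨j', hj'⟩ := hv_true j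
    have e : hv (j, !false) = (j', !false) := hj'
    rw [e, h2]

theorem hG_val : (hG : (Matrix (Fin 3) (Fin 3) (MM Bool))ˣ).1 =
    Matrix.diagonal fun _ => (hM : MM Bool) := rfl

theorem hGi_val : (hG⁻¹ : (Matrix (Fin 3) (Fin 3) (MM Bool))ˣ).1 =
    Matrix.diagonal fun _ => ((hM⁻¹ : (MM Bool)ˣ) : MM Bool) := rfl

theorem conj_el (i j : Fin 3) (h : i ≠ j) (a : MM Bool) :
    hG⁻¹ * el i j h a * hG =
      el i j h (((hM⁻¹ : (MM Bool)ˣ) : MM Bool) * a * (hM : MM Bool)) := by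
  apply Units.ext
  rw [Units.val_mul, Units.val_mul, hG_val, hGi_val]
  change Matrix.diagonal _ * (1 + Matrix.single i j a) * Matrix.diagonal _ =
    1 + Matrix.single i j _
  ext k l : 1
  rw [Matrix.mul_diagonal, Matrix.diagonal_mul, Matrix.add_apply, Matrix.add_apply,
    Matrix.one_apply, Matrix.single_apply, Matrix.single_apply]
  by_cases h1 : k = l
  · subst h1
    have h2 : ¬ (i = k ∧ j = k) := fun hh => h (hh.1.trans hh.2.symm)
    rw [if_pos rfl, if_neg h2, if_neg h2, add_zero, mul_one, Units.inv_mul]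
  · rw [if_neg h1]
    by_cases h2 : i = k ∧ j = l
    · rw [if_pos h2, if_pos h2, zero_add, zero_add]
    · rw [if_neg h2, if_neg h2, add_zero, mul_zero, zero_mul]

theorem conj_mem (hC : S_CONJ) :
    ∀ k ∈ EE (RR false), hG⁻¹ * k * hG ∈ EE (RR false) := by
  intro k hk
  refine Subgroup.closure_induction (p := fun k _ => hG⁻¹ * k * hG ∈ EE (RR false))
    ?_ ?_ ?_ ?_ hk
  · rintro _ ⟨i, j, h, a, ha, rfl⟩
    rw [conj_el]
    exact Subgroup.subset_closure ⟨i, j, h, _, conj_RR hC ha, rfl⟩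
  · rw [mul_one, inv_mul_cancel]
    exact Subgroup.one_mem _
  · intro x y _ _ hx hy
    have e : hG⁻¹ * (x * y) * hG = (hG⁻¹ * x * hG) * (hG⁻¹ * y * hG) := by group
    rw [e]
    exact Subgroup.mul_mem _ hx hy
  · intro x _ hx
    have e : hG⁻¹ * x⁻¹ * hG = (hG⁻¹ * x * hG)⁻¹ := by group
    rw [e]
    exact Subgroup.inv_mem _ hx

theorem kills {b : Bool} {x : MM Bool} (hx : x ∈ RR b) (v : Vc Bool)
    (hv0 : ∀ j : ℤ, v (j, b) = 0) : x v = 0 := by
  rw [← Finsupp.sum_single v, Finsupp.sum, map_sum]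
  refine Finset.sum_eq_zero fun w hw => ?_
  obtain ⟨j, c⟩ := w
  have hc : c = !b := by
    rcases Bool.eq_or_eq_not c b with h | h
    · exfalso
      rw [Finsupp.mem_support_iff, h] at hw
      exact hw (hv0 j)
    · exact h
  subst hc
  have e : Finsupp.single (j, !b) (v (j, !b)) = v (j, !b) • Finsupp.single (j, !b) (1 : F) := by
    rw [Finsupp.smul_single, smul_eq_mul, mul_one]
  rw [e, map_smul, hx.2.1, smul_zero]

theorem RR_mul {b b' : Bool} (hb : b' = !b) {x y : MM Bool} (hx : x ∈ RR b) (hy : y ∈ RR b') :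
    x * y = 0 := by
  refine LinearMap.ext fun v => ?_
  rw [Module.End.mul_apply, LinearMap.zero_apply]
  refine kills hx _ fun j => ?_
  have := hy.2.2 v j
  rwa [hb, Bool.not_not] at this

theorem el_comm {A : Type} [Ring A] {a b : A} (h1 : a * b = 0) (h2 : b * a = 0)
    (i j : Fin 3) (h : i ≠ j) (k l : Fin 3) (h' : k ≠ l) :
    el i j h a * el k l h' b = el k l h' b * el i j h a := by
  apply Units.ext
  change (1 + Matrix.single i j a) * (1 + Matrix.single k l b) =
    (1 + Matrix.single k l b) * (1 + Matrix.single i j a)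
  have e1 : Matrix.single i j a * Matrix.single k l b = 0 := by
    by_cases hh : j = k
    · subst hh
      rw [Matrix.single_mul_single_same, h1, Matrix.single_zero]
    · rw [Matrix.single_mul_single_of_ne _ _ _ _ hh]
  have e2 : Matrix.single k l b * Matrix.single i j a = 0 := by
    by_cases hh : l = i
    · subst hh
      rw [Matrix.single_mul_single_same, h2, Matrix.single_zero]
    · rw [Matrix.single_mul_single_of_ne _ _ _ _ hh]
  rw [mul_add, mul_add, add_mul, add_mul, add_mul, add_mul, e1, e2]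
  simp only [one_mul, mul_one, add_zero]
  abel

theorem cl_comm {G : Type} [Group G] {S T : Set G} (h : ∀ s ∈ S, ∀ t ∈ T, s * t = t * s) :
    ∀ k ∈ Subgroup.closure S, ∀ t ∈ Subgroup.closure T, k * t = t * k := by
  have h1 : ∀ t ∈ T, ∀ k ∈ Subgroup.closure S, k * t = t * k := by
    intro t ht k hk
    have h2 : Subgroup.closure S ≤ Subgroup.centralizer {t} := by
      rw [Subgroup.closure_le]
      intro s hs
      rw [SetLike.mem_coe, Subgroup.mem_centralizer_iff]
      rintro _ rfl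
      exact (h s hs _ ht).symm
    have h3 := Subgroup.mem_centralizer_iff.1 (h2 hk) t rfl
    exact h3.symm
  intro k hk t ht
  have h2 : Subgroup.closure T ≤ Subgroup.centralizer {k} := by
    rw [Subgroup.closure_le]
    intro s hs
    rw [SetLike.mem_coe, Subgroup.mem_centralizer_iff]
    rintro _ rfl
    exact h1 s hs _ hk
  exact Subgroup.mem_centralizer_iff.1 (h2 ht) k rfl

theorem comm_lines : ∀ k ∈ EE (RR false), ∀ t ∈ EE (RR true), k * t = t * k := by
  refine cl_comm ?_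
  rintro _ ⟨i, j, h, a, ha, rfl⟩ _ ⟨k, l, h', b, hb, rfl⟩
  exact el_comm (RR_mul rfl ha hb) (RR_mul rfl hb ha) i j h k l h'

theorem eu_apply (w w' : ℤ × Bool) (c : F) (v : Vc Bool) :
    eu w w' c v = Finsupp.single w (c * v w') := rfl

theorem eu_mem (b : Bool) (m n : ℤ) (c : F) : eu (m, b) (n, b) c ∈ RR b := by
  refine ⟨⟨0, n.natAbs + 1, fun b' j hj => ?_⟩, fun j => ?_, fun v j => ?_⟩
  · have h1 : ((j, b') : ℤ × Bool) ≠ (n, b) := by
      intro hh
      have h2 : j = n := (Prod.ext_iff.1 hh).1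
      subst h2
      rw [Int.abs_eq_natAbs] at hj
      push_cast at hj
      omega
    rw [eu_apply, Finsupp.single_eq_of_ne h1.symm, mul_zero, Finsupp.single_zero, Pi.zero_apply]
    simp [sh]
  · have h1 : ((j, !b) : ℤ × Bool) ≠ (n, b) := by
      intro hh
      have h2 : (!b) = b := (Prod.ext_iff.1 hh).2
      cases b <;> simp at h2
    rw [eu_apply, Finsupp.single_eq_of_ne h1.symm, mul_zero, Finsupp.single_zero]
  · have h1 : ((j, !b) : ℤ × Bool) ≠ (m, b) := by
      intro hh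
      have h2 : (!b) = b := (Prod.ext_iff.1 hh).2
      cases b <;> simp at h2
    rw [eu_apply, Finsupp.single_eq_of_ne h1]

theorem conj_eu : ((hM⁻¹ : (MM Bool)ˣ) : MM Bool) * eu (0, true) (0, true) 1 * (hM : MM Bool) =
    eu (-1, false) (-1, false) 1 := by
  refine LinearMap.ext fun v => ?_
  ext w
  rw [Module.End.mul_apply, Module.End.mul_apply, hMi_apply, eu_apply, eu_apply, hM_apply]
  have e : hv.symm (0, true) = (-1, false) := rfl
  have e' : hv (-1, false) = (0, true) := rfl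
  rw [e, Finsupp.single_apply, Finsupp.single_apply]
  by_cases h : (-1, false) = w
  · rw [if_pos h, if_pos (by rw [← h, e'])]
  · rw [if_neg h, if_neg (fun h' => h (by
      have := congrArg hv.symm h'
      rwa [e, Equiv.symm_apply_apply] at this))]

theorem nc_el {A : Type} [Ring A] {e : A} (he : e * e ≠ 0) (h01 : (0 : Fin 3) ≠ 1)
    (h12 : (1 : Fin 3) ≠ 2) :
    el 0 1 h01 e * el 1 2 h12 e ≠ el 1 2 h12 e * el 0 1 h01 e := by
  intro hh
  have h1 : ((1 + Matrix.single 0 1 e) * (1 + Matrix.single 1 2 e) :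
      Matrix (Fin 3) (Fin 3) A) 0 2 =
      ((1 + Matrix.single 1 2 e) * (1 + Matrix.single 0 1 e) : Matrix (Fin 3) (Fin 3) A) 0 2 :=
    congrArg (fun u : (Matrix (Fin 3) (Fin 3) A)ˣ => u.1 0 2) hh
  rw [Matrix.mul_apply, Matrix.mul_apply, Fin.sum_univ_three, Fin.sum_univ_three] at h1
  simp [Matrix.add_apply] at h1
  exact he h1

theorem e_sq : eu (0, true) (0, true) 1 * eu (0, true) (0, true) 1 ≠ (0 : MM Bool) := by
  intro hh
  have h2 := congrArg (fun x : MM Bool => x (Finsupp.single (0, true) 1)) hh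
  rw [Module.End.mul_apply, eu_apply, eu_apply, Finsupp.single_eq_same, Finsupp.single_eq_same,
    LinearMap.zero_apply, mul_one, mul_one, Finsupp.single_eq_zero] at h2
  exact one_ne_zero h2

theorem hT (i j : Fin 3) (h : i ≠ j) : el i j h (eu (0, true) (0, true) 1) ∈ EE (RR true) :=
  Subgroup.subset_closure ⟨i, j, h, _, eu_mem true 0 0 1, rfl⟩

theorem hF (i j : Fin 3) (h : i ≠ j) :
    hG⁻¹ * el i j h (eu (0, true) (0, true) 1) * hG ∈ EE (RR false) := by
  rw [conj_el, conj_eu]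
  exact Subgroup.subset_closure ⟨i, j, h, _, eu_mem false (-1) (-1) 1, rfl⟩

theorem cm {l : (Matrix (Fin 3) (Fin 3) (MM Bool))ˣ} (hl : l ∈ EE (RR true)) :
    ∀ k ∈ EE (RR false), l * k = k * l := fun k hk => (comm_lines k hk l hl).symm

theorem hle : EE (RR true) ≤ Gam := le_sup_of_le_left le_sup_right

theorem part3_aux {l1 l2 : (Matrix (Fin 3) (Fin 3) (MM Bool))ˣ} (h1 : l1 ∈ EE (RR true))
    (h2 : l2 ∈ EE (RR true)) (h3 : hG⁻¹ * l1 * hG ∈ EE (RR false))
    (h4 : hG⁻¹ * l2 * hG ∈ EE (RR false)) (h5 : l1 * l2 ≠ l2 * l1) :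
    ∃ l1 l2, l1 ∈ Gam ∧ l2 ∈ Gam ∧ hG⁻¹ * l1 * hG ∈ EE (RR false) ∧
    hG⁻¹ * l2 * hG ∈ EE (RR false) ∧ (∀ k ∈ EE (RR false), l1 * k = k * l1) ∧
    (∀ k ∈ EE (RR false), l2 * k = k * l2) ∧ l1 * l2 ≠ l2 * l1 :=
  ⟨l1, l2, hle h1, hle h2, h3, h4, cm h1, cm h2, h5⟩

theorem part3 : ∃ l1 l2, l1 ∈ Gam ∧ l2 ∈ Gam ∧ hG⁻¹ * l1 * hG ∈ EE (RR false) ∧
    hG⁻¹ * l2 * hG ∈ EE (RR false) ∧ (∀ k ∈ EE (RR false), l1 * k = k * l1) ∧
    (∀ k ∈ EE (RR false), l2 * k = k * l2) ∧ l1 * l2 ≠ l2 * l1 :=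
  part3_aux (hT 0 1 (by decide)) (hT 1 2 (by decide)) (hF 0 1 (by decide)) (hF 1 2 (by decide))
    (nc_el e_sq (by decide) (by decide))

theorem main (hC : S_CONJ) : S_MON := ⟨conj_mem hC, comm_lines, part3⟩

end

end Pool.Agent.N221.OM_MON
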