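import Pool.Agent.N804.PV.StmE

/-! # Project PV, part 1b: the prime side of the explicit formula -/

set_option autoImplicit false
set_option maxHeartbeats 2000000

namespace Pool.Agent.N221.PV1b

open Complex Filter Topology Set MeasureTheory
open Pool.Agent.N804.PV
open Pool.Agent.Y23 (ZZ YL Lam Zt mu Dec JJ prime_line Lam_zero Lam_norm)

lemma cpow_half {x : ℝ} (hx : 0 ≤ x) : ((x ^ 2 : ℝ) : ℂ) ^ (1 / 2 : ℂ) = (x : ℂ) := by
  have h2 : (1 / 2 : ℂ) = ((1 / 2 : ℝ) : ℂ) := by push_cast; rfl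
  rw [h2, ← Complex.ofReal_cpow (by positivity), ← Real.sqrt_eq_rpow, Real.sqrt_sq hx]

/-- Fourier transform of the gaussian -/
lemma ft_gauss {ε : ℝ} (hε : 0 < ε) (u : ℝ) :
    ∫ t : ℝ, cexp (u * (t * I) + (ε : ℂ) ^ 2 * (t * I) ^ 2 / 2) = ((2 * Real.pi * gs ε u : ℝ) : ℂ) := by
  have hε' : (ε : ℂ) ≠ 0 := by exact_mod_cast hε.ne'
  have hb : (-((ε : ℂ) ^ 2 / 2)).re < 0 := by
    rw [show (-((ε : ℂ) ^ 2 / 2)) = ((-(ε ^ 2 / 2) : ℝ) : ℂ) by push_cast; ring, Complex.ofReal_re]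
    have : 0 < ε ^ 2 := by positivity
    linarith
  have h := integral_cexp_quadratic hb (u * I) 0
  have e1 : (fun t : ℝ => cexp (u * (t * I) + (ε : ℂ) ^ 2 * (t * I) ^ 2 / 2)) =
      fun t : ℝ => cexp (-((ε : ℂ) ^ 2 / 2) * t ^ 2 + u * I * t + 0) := by
    funext t
    congr 1
    rw [mul_pow, I_sq]
    ring
  rw [e1, h, neg_neg]
  have e2 : ((Real.pi : ℂ) / ((ε : ℂ) ^ 2 / 2)) = (((Real.sqrt (2 * Real.pi) / ε) ^ 2 : ℝ) : ℂ) := by
    rw [div_pow, Real.sq_sqrt (by positivity)]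
    push_cast
    field_simp
  rw [e2, cpow_half (by positivity)]
  have e3 : (0 : ℂ) - (u * I) ^ 2 / (4 * -((ε : ℂ) ^ 2 / 2)) = ((-(u ^ 2 / (2 * ε ^ 2)) : ℝ) : ℂ) := by
    rw [mul_pow, I_sq]
    push_cast
    field_simp
    ring
  rw [e3, ← Complex.ofReal_exp, ← Complex.ofReal_mul]
  congr 1
  unfold gs
  have e4 : 2 * Real.pi = Real.sqrt (2 * Real.pi) * Real.sqrt (2 * Real.pi) :=
    (Real.mul_self_sqrt (by positivity)).symm
  have e5 : Real.sqrt (2 * Real.pi) ≠ 0 := by positivity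
  have e6 : 2 * Real.pi * (Real.exp (-(u ^ 2 / (2 * ε ^ 2))) / (ε * Real.sqrt (2 * Real.pi))) =
      (Real.sqrt (2 * Real.pi) * Real.sqrt (2 * Real.pi)) * (Real.exp (-(u ^ 2 / (2 * ε ^ 2))) / (ε * Real.sqrt (2 * Real.pi))) := by
    rw [← e4]
  rw [e6]
  field_simp

/-- exponential moments of the gaussian -/
lemma gs_exp {ε : ℝ} (hε : 0 < ε) (a b : ℝ) :
    Integrable (fun v : ℝ => gs ε v * Real.exp (a * v + b)) ∧
    ∫ v : ℝ, gs ε v * Real.exp (a * v + b) = Real.exp (ε ^ 2 * a ^ 2 / 2 + b) := by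
  have hε' : (ε : ℂ) ≠ 0 := by exact_mod_cast hε.ne'
  have hb : (-(1 / (2 * (ε : ℂ) ^ 2))).re < 0 := by
    rw [show (-(1 / (2 * (ε : ℂ) ^ 2))) = ((-(1 / (2 * ε ^ 2)) : ℝ) : ℂ) by push_cast; ring, Complex.ofReal_re]
    have : 0 < 1 / (2 * ε ^ 2) := by positivity
    linarith
  have e1 : (fun v : ℝ => ((gs ε v * Real.exp (a * v + b) : ℝ) : ℂ)) =
      fun v : ℝ => ((1 / (ε * Real.sqrt (2 * Real.pi)) : ℝ) : ℂ) *
        cexp (-(1 / (2 * (ε : ℂ) ^ 2)) * v ^ 2 + a * v + b) := by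
    funext v
    have : (-(1 / (2 * (ε : ℂ) ^ 2)) * v ^ 2 + a * v + b) = ((-(v ^ 2 / (2 * ε ^ 2)) + (a * v + b) : ℝ) : ℂ) := by
      push_cast
      ring
    rw [this, ← Complex.ofReal_exp, ← Complex.ofReal_mul]
    congr 1
    unfold gs
    rw [Real.exp_add (-(v ^ 2 / (2 * ε ^ 2))) (a * v + b)]
    ring
  have h := integral_cexp_quadratic hb a b
  have h' := integrable_cexp_quadratic' hb a b
  have i1 : Integrable (fun v : ℝ => ((gs ε v * Real.exp (a * v + b) : ℝ) : ℂ)) := by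
    rw [e1]
    exact h'.const_mul _
  refine ⟨?_, ?_⟩
  · have := i1.re
    simpa only [RCLike.re_eq_complex_re, Complex.ofReal_re] using this
  · have h2 : ((∫ v : ℝ, gs ε v * Real.exp (a * v + b) : ℝ) : ℂ) =
        ((Real.exp (ε ^ 2 * a ^ 2 / 2 + b) : ℝ) : ℂ) := by
      rw [← integral_complex_ofReal, e1, integral_const_mul, h, neg_neg]
      have e2 : ((Real.pi : ℂ) / (1 / (2 * (ε : ℂ) ^ 2))) = (((ε * Real.sqrt (2 * Real.pi)) ^ 2 : ℝ) : ℂ) := by
        rw [mul_pow, Real.sq_sqrt (by positivity)]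
        push_cast
        field_simp
      rw [e2, cpow_half (by positivity), ← mul_assoc, ← Complex.ofReal_mul]
      rw [one_div_mul_cancel (by positivity : ε * Real.sqrt (2 * Real.pi) ≠ 0), Complex.ofReal_one, one_mul,
        Complex.ofReal_exp]
      congr 1
      push_cast
      field_simp
      ring
    exact_mod_cast h2

lemma gs_nonneg {ε : ℝ} (hε : 0 < ε) (v : ℝ) : 0 ≤ gs ε v := by
  unfold gs; positivity

lemma gs_neg (ε v : ℝ) : gs ε (-v) = gs ε v := by
  unfold gs; rw [neg_sq]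

lemma gs_cont (ε : ℝ) : Continuous (gs ε) := by
  unfold gs; fun_prop

lemma hlog {T : ℝ} (hT : 2 ≤ T) : 0 < Real.log (1 + 1 / T) ∧ Real.exp (Real.log (1 + 1 / T)) = 1 + 1 / T := by
  have h1 : (0 : ℝ) < 1 / T := by positivity
  exact ⟨Real.log_pos (by linarith), Real.exp_log (by linarith)⟩

lemma mk0 (t : ℝ) : (⟨0, t⟩ : ℂ) = t * I := by apply Complex.ext <;> simp

/-- the integral over the primes at one point -/
noncomputable def Iv (h ε y L : ℝ) : ℝ := ∫ v in Ioc (0 : ℝ) h, Real.exp ((v - L) / 2) * gs ε (y + v - L)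

lemma JJ_hT {T : ℝ} (hT2 : 2 ≤ T) {ε : ℝ} (hε : 0 < ε) (y L : ℝ) :
    JJ (hT T ε y) L = ((2 * Real.pi * Iv (Real.log (1 + 1 / T)) ε y L : ℝ) : ℂ) := by
  obtain ⟨hh, -⟩ := hlog hT2
  set h := Real.log (1 + 1 / T) with hhdef
  unfold JJ
  set f : ℝ → ℝ → ℂ := fun t v => cexp (((v : ℂ) - L) / 2) *
    cexp (((y + v - L : ℝ) : ℂ) * (t * I) + (ε : ℂ) ^ 2 * (t * I) ^ 2 / 2) with hf
  have e1 : (fun t : ℝ => cexp (-(L : ℂ) * (1 / 2 + ⟨0, t⟩)) * hT T ε y ⟨0, t⟩) =
      fun t : ℝ => ∫ v in Ioc (0 : ℝ) h, f t v := by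
    funext t
    unfold hT aT
    rw [← hhdef, intervalIntegral.integral_of_le hh.le, ← integral_mul_const, ← integral_const_mul]
    refine integral_congr_ae (Eventually.of_forall fun v => ?_)
    simp only [hf, mk0]
    rw [← Complex.exp_add, ← Complex.exp_add, ← Complex.exp_add]
    congr 1
    push_cast
    ring
  rw [e1]
  have hnorm : ∀ t v : ℝ, ‖f t v‖ = Real.exp (-(ε ^ 2 / 2) * t ^ 2) * Real.exp ((v - L) / 2) := by
    intro t v
    simp only [hf]
    rw [norm_mul, Complex.norm_exp, Complex.norm_exp, mul_comm]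
    congr 2
    · rw [mul_pow, I_sq]
      have : (((y + v - L : ℝ) : ℂ) * (t * I) + (ε : ℂ) ^ 2 * ((t : ℂ) ^ 2 * -1) / 2) =
          ((-(ε ^ 2 / 2) * t ^ 2 : ℝ) : ℂ) + (((y + v - L) * t : ℝ) : ℂ) * I := by
        push_cast; ring
      rw [this, Complex.add_re, Complex.ofReal_re, Complex.re_ofReal_mul, Complex.I_re, mul_zero, add_zero]
    · have : (((v : ℂ) - L) / 2) = (((v - L) / 2 : ℝ) : ℂ) := by push_cast; ring
      rw [this, Complex.ofReal_re]
  have hint : Integrable (Function.uncurry f) (volume.prod (volume.restrict (Ioc (0 : ℝ) h))) := by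
    have i1 : Integrable (fun t : ℝ => Real.exp (-(ε ^ 2 / 2) * t ^ 2)) :=
      integrable_exp_neg_mul_sq (by positivity)
    have i2 : Integrable (fun v : ℝ => Real.exp ((v - L) / 2)) (volume.restrict (Ioc (0 : ℝ) h)) := by
      have : IntegrableOn (fun v : ℝ => Real.exp ((v - L) / 2)) (Icc 0 h) :=
        (by fun_prop : Continuous (fun v : ℝ => Real.exp ((v - L) / 2))).continuousOn.integrableOn_Icc
      exact this.mono_set Ioc_subset_Icc_self
    refine (i1.mul_prod i2).mono' ?_ ?_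
    · have : Continuous (Function.uncurry f) := by
        simp only [hf]
        unfold Function.uncurry
        fun_prop
      exact this.aestronglyMeasurable
    · refine Eventually.of_forall fun p => ?_
      exact (hnorm p.1 p.2).le
  rw [integral_integral_swap hint]
  unfold Iv
  rw [← integral_const_mul, ← integral_complex_ofReal]
  refine integral_congr_ae (Eventually.of_forall fun v => ?_)
  simp only [hf]
  rw [integral_const_mul, ft_gauss hε (y + v - L)]
  have : (((v : ℂ) - L) / 2) = (((v - L) / 2 : ℝ) : ℂ) := by push_cast; ring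
  rw [this, ← Complex.ofReal_exp, ← Complex.ofReal_mul]
  congr 1
  ring

/-- the same as an integral over the line -/
lemma Iv_line {h : ℝ} (ε y L : ℝ) :
    Iv h ε y L = ∫ v : ℝ, gs ε v * (Real.exp (-((y + v) / 2)) * (if y + v < L ∧ L ≤ y + v + h then 1 else 0)) := by
  unfold Iv
  rw [← integral_indicator measurableSet_Ioc]
  rw [← integral_sub_left_eq_self _ volume (L - y)]
  refine integral_congr_ae (Eventually.of_forall fun v => ?_)
  show (Ioc (0 : ℝ) h).indicator (fun v => Real.exp ((v - L) / 2) * gs ε (y + v - L)) (L - y - v) =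
    gs ε v * (Real.exp (-((y + v) / 2)) * (if y + v < L ∧ L ≤ y + v + h then 1 else 0))
  by_cases hv : L - y - v ∈ Ioc (0 : ℝ) h
  · rw [indicator_of_mem hv]
    have h1 : y + v < L ∧ L ≤ y + v + h := ⟨by linarith [hv.1], by linarith [hv.2]⟩
    rw [if_pos h1, mul_one, mul_comm]
    congr 1
    · rw [show y + (L - y - v) - L = -v by ring, gs_neg]
    · congr 1; ring
  · rw [indicator_of_notMem hv]
    have h1 : ¬ (y + v < L ∧ L ≤ y + v + h) := by
      rintro ⟨h1, h2⟩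
      exact hv ⟨by linarith, by linarith⟩
    rw [if_neg h1]
    ring

/-- the difference of two values of the Chebyshev function -/
lemma psi_diff {a b : ℝ} (ha : 0 ≤ a) (hab : a ≤ b) (s : Finset ℕ) (hs : Finset.Ioc ⌊a⌋₊ ⌊b⌋₊ ⊆ s) :
    Chebyshev.psi b - Chebyshev.psi a =
      ∑ n ∈ s, ArithmeticFunction.vonMangoldt n * (if a < n ∧ (n : ℝ) ≤ b then 1 else 0) := by
  have h1 : ⌊a⌋₊ ≤ ⌊b⌋₊ := Nat.floor_mono hab
  unfold Chebyshev.psi
  rw [← Finset.sum_Ioc_consecutive _ (Nat.zero_le _) h1, add_sub_cancel_left]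
  rw [← Finset.sum_subset hs]
  · refine Finset.sum_congr rfl fun n hn => ?_
    rw [Finset.mem_Ioc] at hn
    rw [if_pos, mul_one]
    exact ⟨(Nat.floor_lt ha).1 hn.1, (Nat.le_floor_iff (ha.trans hab)).1 hn.2⟩
  · intro n _ hn
    rw [if_neg, mul_zero]
    rintro ⟨h2, h3⟩
    apply hn
    rw [Finset.mem_Ioc]
    exact ⟨(Nat.floor_lt ha).2 h2, (Nat.le_floor_iff (ha.trans hab)).2 h3⟩

/-- the terms -/
noncomputable def F (T ε y : ℝ) (n : ℕ) (v : ℝ) : ℝ :=
  if n = 0 then -(gs ε v * Real.exp (1 / 2 * v + y / 2)) / T else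
    ArithmeticFunction.vonMangoldt n * (gs ε v * (Real.exp (-((y + v) / 2)) *
      (if y + v < Real.log n ∧ Real.log n ≤ y + v + Real.log (1 + 1 / T) then 1 else 0)))

lemma F_sum {T : ℝ} (hT : 2 ≤ T) (ε y v : ℝ) : ∑' n, F T ε y n v = gs ε v * DT T (y + v) := by
  obtain ⟨hh, hexp⟩ := hlog hT
  set h := Real.log (1 + 1 / T) with hhdef
  set a := Real.exp (y + v) with ha
  set b := Real.exp (y + v) * (1 + 1 / T) with hb
  have ha0 : 0 < a := Real.exp_pos _
  have hab : a ≤ b := by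
    rw [hb, mul_add, mul_one]
    have : 0 ≤ Real.exp (y + v) * (1 / T) := by positivity
    linarith
  have hb0 : 0 < b := ha0.trans_le hab
  have hbe : b = Real.exp (y + v + h) := by rw [Real.exp_add, hexp]
  have key : ∀ n : ℕ, n ≠ 0 → ((y + v < Real.log n ∧ Real.log n ≤ y + v + h) ↔ (a < n ∧ (n : ℝ) ≤ b)) := by
    intro n hn
    have hn0 : (0 : ℝ) < n := by exact_mod_cast Nat.pos_of_ne_zero hn
    rw [Real.lt_log_iff_exp_lt hn0, Real.log_le_iff_le_exp hn0, ← hbe]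
  set s := Finset.range (⌊b⌋₊ + 1) with hs
  have hss : Finset.Ioc ⌊a⌋₊ ⌊b⌋₊ ⊆ s := by
    intro n hn
    rw [Finset.mem_Ioc] at hn
    rw [hs, Finset.mem_range]
    omega
  have e0 : ∑' n, F T ε y n v = ∑ n ∈ s, F T ε y n v := by
    apply tsum_eq_sum
    intro n hn
    have hn1 : ⌊b⌋₊ < n := by
      rw [hs, Finset.mem_range] at hn
      omega
    have hn0 : n ≠ 0 := by omega
    unfold F
    rw [if_neg hn0, if_neg, mul_zero, mul_zero, mul_zero]
    rw [key n hn0]
    rintro ⟨-, h3⟩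
    have := (Nat.le_floor_iff hb0.le).2 h3
    omega
  rw [e0]
  unfold DT
  rw [psi_diff ha0.le hab s hss]
  have e1 : ∀ n ∈ s, F T ε y n v = (if n = 0 then -(gs ε v * Real.exp (1 / 2 * v + y / 2)) / T else 0) +
      gs ε v * Real.exp (-((y + v) / 2)) * (ArithmeticFunction.vonMangoldt n * (if a < n ∧ (n : ℝ) ≤ b then 1 else 0)) := by
    intro n _
    unfold F
    by_cases hn : n = 0
    · subst hn
      simp
    · rw [if_neg hn, if_neg hn]
      by_cases h1 : a < n ∧ (n : ℝ) ≤ b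
      · rw [if_pos h1, if_pos ((key n hn).2 h1)]
        ring
      · rw [if_neg h1, if_neg (fun h2 => h1 ((key n hn).1 h2))]
        ring
  rw [Finset.sum_congr rfl e1, Finset.sum_add_distrib, ← Finset.mul_sum]
  have e2 : ∑ n ∈ s, (if n = 0 then -(gs ε v * Real.exp (1 / 2 * v + y / 2)) / T else 0) =
      -(gs ε v * Real.exp (1 / 2 * v + y / 2)) / T := by
    rw [Finset.sum_ite_eq' s 0]
    rw [if_pos]
    rw [hs, Finset.mem_range]
    omega
  rw [e2]
  have e3 : Real.exp (1 / 2 * v + y / 2) = Real.exp (-((y + v) / 2)) * a := by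
    rw [ha, ← Real.exp_add]
    congr 1
    ring
  rw [e3]
  ring

lemma F_int_succ {ε : ℝ} (hε : 0 < ε) (T y : ℝ) {n : ℕ} (hn : n ≠ 0) :
    Integrable (F T ε y n) ∧ ∫ v : ℝ, ‖F T ε y n v‖ =
      ArithmeticFunction.vonMangoldt n * Iv (Real.log (1 + 1 / T)) ε y (Real.log n) ∧
    ∫ v : ℝ, F T ε y n v = ArithmeticFunction.vonMangoldt n * Iv (Real.log (1 + 1 / T)) ε y (Real.log n) := by
  set h := Real.log (1 + 1 / T) with hhdef
  have hF : F T ε y n = fun v => ArithmeticFunction.vonMangoldt n * (gs ε v * (Real.exp (-((y + v) / 2)) *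
      (if y + v < Real.log n ∧ Real.log n ≤ y + v + h then 1 else 0))) := by
    funext v
    unfold F
    rw [if_neg hn]
  have hnn : ∀ v, 0 ≤ F T ε y n v := by
    intro v
    rw [hF]
    have h1 := gs_nonneg hε v
    have h2 : (0 : ℝ) ≤ (if y + v < Real.log n ∧ Real.log n ≤ y + v + h then 1 else 0) := by
      split_ifs <;> norm_num
    have h3 : (0 : ℝ) ≤ ArithmeticFunction.vonMangoldt n := ArithmeticFunction.vonMangoldt_nonneg
    positivity
  have e : ∫ v : ℝ, F T ε y n v = ArithmeticFunction.vonMangoldt n * Iv h ε y (Real.log n) := by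
    rw [hF, integral_const_mul, Iv_line]
  refine ⟨?_, ?_, e⟩
  · have i1 := (gs_exp hε (-(1 / 2)) (-(y / 2))).1
    have i2 := (i1.indicator (measurableSet_Ico (a := Real.log n - y - h) (b := Real.log n - y))).const_mul
      (ArithmeticFunction.vonMangoldt n)
    refine i2.congr (Eventually.of_forall fun v => ?_)
    rw [hF]
    show ArithmeticFunction.vonMangoldt n * (Ico (Real.log n - y - h) (Real.log n - y)).indicator
      (fun v => gs ε v * Real.exp (-(1 / 2) * v + -(y / 2))) v = ArithmeticFunction.vonMangoldt n *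
        (gs ε v * (Real.exp (-((y + v) / 2)) * (if y + v < Real.log n ∧ Real.log n ≤ y + v + h then 1 else 0)))
    congr 1
    by_cases hv : v ∈ Ico (Real.log n - y - h) (Real.log n - y)
    · rw [indicator_of_mem hv, if_pos ⟨by linarith [hv.2], by linarith [hv.1]⟩, mul_one]
      congr 2
      ring
    · rw [indicator_of_notMem hv, if_neg, mul_zero, mul_zero]
      rintro ⟨h1, h2⟩
      exact hv ⟨by linarith, by linarith⟩
  · rw [← e]
    refine integral_congr_ae (Eventually.of_forall fun v => ?_)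
    show ‖F T ε y n v‖ = F T ε y n v
    rw [Real.norm_eq_abs, abs_of_nonneg (hnn v)]

lemma F_int_zero {ε : ℝ} (hε : 0 < ε) (T y : ℝ) :
    Integrable (F T ε y 0) ∧ ∫ v : ℝ, F T ε y 0 v = -(Real.exp (ε ^ 2 / 8 + y / 2) / T) := by
  have hF : F T ε y 0 = fun v => (-(1 / T)) * (gs ε v * Real.exp (1 / 2 * v + y / 2)) := by
    funext v
    unfold F
    rw [if_pos rfl]
    ring
  obtain ⟨i1, e1⟩ := gs_exp hε (1 / 2) (y / 2)
  rw [hF]
  refine ⟨i1.const_mul _, ?_⟩
  rw [integral_const_mul, e1]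
  rw [show ε ^ 2 * (1 / 2) ^ 2 / 2 + y / 2 = ε ^ 2 / 8 + y / 2 by ring]
  ring

lemma hT_half {T : ℝ} (hT2 : 2 ≤ T) (ε y : ℝ) :
    hT T ε y (1 / 2) = ((Real.exp (ε ^ 2 / 8 + y / 2) / T : ℝ) : ℂ) := by
  obtain ⟨hh, hexp⟩ := hlog hT2
  unfold hT aT
  set h := Real.log (1 + 1 / T) with hhdef
  have e1 : ∫ v in (0 : ℝ)..h, cexp ((v : ℂ) * (1 / 2 + 1 / 2)) = ((1 / T : ℝ) : ℂ) := by
    have e2 : (fun v : ℝ => cexp ((v : ℂ) * (1 / 2 + 1 / 2))) = fun v : ℝ => ((Real.exp v : ℝ) : ℂ) := by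
      funext v
      rw [Complex.ofReal_exp]
      congr 1
      norm_num
    rw [e2, intervalIntegral.integral_ofReal, integral_exp, hexp, Real.exp_zero]
    congr 1
    ring
  rw [e1]
  have e3 : ((y : ℂ) * (1 / 2) + (ε : ℂ) ^ 2 * (1 / 2) ^ 2 / 2) = ((ε ^ 2 / 8 + y / 2 : ℝ) : ℂ) := by
    push_cast; ring
  rw [e3, ← Complex.ofReal_exp, ← Complex.ofReal_mul]
  congr 1
  ring

theorem main (hd : S_PV1d) : S_PV1b := by
  intro T hT2 ε hε hε1 y
  obtain ⟨M, hM, hdec⟩ := hd T hT2 ε hε hε1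
  obtain ⟨hh, hexp⟩ := hlog hT2
  have hD := (hdec y).1
  have hsum := prime_line (by positivity) (by positivity) hD
  set h := Real.log (1 + 1 / T) with hhdef
  set S : ℂ := ∫ t : ℝ, H370.DD Lam ⟨3 / 2, t⟩ * hT T ε y ⟨1, t⟩ with hS
  have hJ : (fun n : ℕ => Lam n * JJ (hT T ε y) (Real.log n)) =
      fun n : ℕ => ((2 * Real.pi * (ArithmeticFunction.vonMangoldt n * Iv h ε y (Real.log n)) : ℝ) : ℂ) := by
    funext n
    rw [JJ_hT hT2 hε, Lam, ← Complex.ofReal_mul]
    congr 1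
    ring
  rw [hJ] at hsum
  have hre : HasSum (fun n : ℕ => 2 * Real.pi * (ArithmeticFunction.vonMangoldt n * Iv h ε y (Real.log n))) S.re := by
    have := Complex.hasSum_re hsum
    simpa only [Complex.ofReal_re] using this
  have hSre : S = (S.re : ℂ) := by
    have h1 := (Complex.hasSum_ofReal (L := SummationFilter.unconditional ℕ)).2 hre
    exact hsum.unique h1
  have hpi : (2 * Real.pi) ≠ 0 := by positivity
  have hre2 : HasSum (fun n : ℕ => ArithmeticFunction.vonMangoldt n * Iv h ε y (Real.log n)) (S.re / (2 * Real.pi)) := by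
    have := hre.div_const (2 * Real.pi)
    simpa only [mul_div_cancel_left₀ _ hpi] using this
  have hi : ∀ n, Integrable (F T ε y n) := by
    intro n
    rcases Nat.eq_zero_or_pos n with hn | hn
    · subst hn; exact (F_int_zero hε T y).1
    · exact (F_int_succ hε T y hn.ne').1
  have hsn : Summable fun n => ∫ v : ℝ, ‖F T ε y n v‖ := by
    have h1 := hre2.summable.add (hasSum_ite_eq (0 : ℕ) (∫ v : ℝ, ‖F T ε y 0 v‖)).summable
    refine h1.congr fun n => ?_
    rcases Nat.eq_zero_or_pos n with hn | hn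
    · subst hn
      simp
    · rw [(F_int_succ hε T y hn.ne').2.1, if_neg hn.ne', add_zero]
  have hk := hasSum_integral_of_summable_integral_norm hi hsn
  have e1 : (∫ v : ℝ, ∑' n, F T ε y n v) = DS T ε y := by
    unfold DS
    refine integral_congr_ae (Eventually.of_forall fun v => ?_)
    exact F_sum hT2 ε y v
  rw [e1] at hk
  have hk2 := hre2.add (hasSum_ite_eq (0 : ℕ) (-(Real.exp (ε ^ 2 / 8 + y / 2) / T)))
  have e2 : (fun n => ∫ v : ℝ, F T ε y n v) = fun n => ArithmeticFunction.vonMangoldt n * Iv h ε y (Real.log n) +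
      (if n = 0 then -(Real.exp (ε ^ 2 / 8 + y / 2) / T) else 0) := by
    funext n
    rcases Nat.eq_zero_or_pos n with hn | hn
    · subst hn
      rw [(F_int_zero hε T y).2]
      simp
    · rw [(F_int_succ hε T y hn.ne').2.2, if_neg hn.ne', add_zero]
  rw [e2] at hk
  have e3 : DS T ε y = S.re / (2 * Real.pi) + -(Real.exp (ε ^ 2 / 8 + y / 2) / T) := hk.unique hk2
  rw [hSre, hT_half hT2, e3]
  push_cast
  have hpi' : (Real.pi : ℂ) ≠ 0 := by exact_mod_cast Real.pi_ne_zero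
  field_simp
  ring

end Pool.Agent.N221.PV1b
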