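import Mathlib
import Pool.Agent.Helper475.Miranda

/-!
# Flow factors that separate two points and have infinite entropy

The flow is the shift of the 1-Lipschitz functions from the line to the unit interval, times the
rotation flow of the circle.
-/

set_option autoImplicit false

namespace Pool.Agent.N221.SEF

open Set Filter Topology Dynamics

/-- the 1-Lipschitz functions from the line to the unit interval -/
def LipSet : Set (ℝ → ℝ) := {f | (∀ x, f x ∈ Icc (0 : ℝ) 1) ∧ ∀ x y, |f x - f y| ≤ |x - y|}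

theorem isClosed_lip : IsClosed LipSet := by
  have h1 : IsClosed {f : ℝ → ℝ | ∀ x, f x ∈ Icc (0 : ℝ) 1} := by
    have : {f : ℝ → ℝ | ∀ x, f x ∈ Icc (0 : ℝ) 1} = ⋂ x, {f : ℝ → ℝ | f x ∈ Icc (0 : ℝ) 1} := by
      ext f; simp
    rw [this]
    exact isClosed_iInter fun x => isClosed_Icc.preimage (continuous_apply x)
  have h2 : IsClosed {f : ℝ → ℝ | ∀ x y, |f x - f y| ≤ |x - y|} := by
    have : {f : ℝ → ℝ | ∀ x y, |f x - f y| ≤ |x - y|} =
        ⋂ x, ⋂ y, {f : ℝ → ℝ | |f x - f y| ≤ |x - y|} := by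
      ext f; simp
    rw [this]
    refine isClosed_iInter fun x => isClosed_iInter fun y => ?_
    exact isClosed_le (by fun_prop) continuous_const
  exact h1.inter h2

instance : CompactSpace LipSet := by
  rw [← isCompact_iff_compactSpace]
  have hK : IsCompact (Set.pi univ fun _ : ℝ => Icc (0 : ℝ) 1) :=
    isCompact_univ_pi fun _ => isCompact_Icc
  exact hK.of_isClosed_subset isClosed_lip fun f hf x _ => hf.1 x

instance : TopologicalSpace.MetrizableSpace LipSet := by
  let r : LipSet → (ℚ → ℝ) := fun f q => f.1 (q : ℝ)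
  have hr : Continuous r := by
    refine continuous_pi fun q => ?_
    exact (continuous_apply (q : ℝ)).comp continuous_subtype_val
  have hinj : Function.Injective r := by
    intro f g hfg
    apply Subtype.ext
    have hfc : ∀ h : LipSet, Continuous h.1 := by
      intro h
      have : LipschitzWith 1 h.1 := LipschitzWith.of_dist_le_mul fun x y => by
        rw [Real.dist_eq, Real.dist_eq]; simpa using h.2.2 x y
      exact this.continuous
    refine Continuous.ext_on (Rat.denseRange_cast (𝕜 := ℝ)) (hfc f) (hfc g) ?_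
    rintro _ ⟨q, rfl⟩
    exact congrFun hfg q
  exact (hr.isClosedEmbedding hinj).isEmbedding.metrizableSpace

/-- the translate of a function -/
def shift (t : ℝ) (f : LipSet) : LipSet :=
  ⟨fun x => f.1 (x + t), fun x => f.2.1 _, fun x y => by
    have := f.2.2 (x + t) (y + t)
    rwa [add_sub_add_right_eq_sub] at this⟩

theorem shift_cont : Continuous fun p : ℝ × LipSet => shift p.1 p.2 := by
  refine Continuous.subtype_mk (continuous_pi fun x => ?_) _
  rw [continuous_iff_continuousAt]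
  rintro ⟨t, f⟩
  have h1 : Tendsto (fun p : ℝ × LipSet => p.2.1 (x + t)) (𝓝 (t, f)) (𝓝 (f.1 (x + t))) := by
    have : Continuous fun p : ℝ × LipSet => p.2.1 (x + t) :=
      (continuous_apply (x + t)).comp (continuous_subtype_val.comp continuous_snd)
    exact this.tendsto (t, f)
  have h2 : Tendsto (fun p : ℝ × LipSet => p.2.1 (x + p.1) - p.2.1 (x + t)) (𝓝 (t, f)) (𝓝 0) := by
    have h3 : Tendsto (fun p : ℝ × LipSet => |p.1 - t|) (𝓝 (t, f)) (𝓝 0) := by
      have : Continuous fun p : ℝ × LipSet => |p.1 - t| := by fun_prop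
      simpa using this.tendsto (t, f)
    refine squeeze_zero_norm (fun p => ?_) h3
    rw [Real.norm_eq_abs]
    have := p.2.2.2 (x + p.1) (x + t)
    rwa [add_sub_add_left_eq_sub] at this
  have h4 := h2.add h1
  simp only [sub_add_cancel, zero_add] at h4
  exact h4

/-- the space of the flow -/
abbrev X : Type := LipSet × UnitAddCircle

/-- the flow: translation of the functions times rotation of the circle -/
def φ : Flow ℝ X where
  toFun t p := (shift t p.1, p.2 + (t : UnitAddCircle))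
  cont' := by
    refine Continuous.prodMk ?_ ?_
    · exact shift_cont.comp (continuous_fst.prodMk (continuous_fst.comp continuous_snd))
    · refine (continuous_snd.comp continuous_snd).add ?_
      exact (AddCircle.continuous_mk' 1).comp continuous_fst
  map_add' := by
    rintro s t ⟨f, θ⟩
    refine Prod.ext (Subtype.ext ?_) ?_
    · funext x
      simp only [shift, add_assoc]
    · simp only [AddCircle.coe_add]
      abel
  map_zero' := by
    rintro ⟨f, θ⟩
    refine Prod.ext (Subtype.ext ?_) ?_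
    · funext x
      simp [shift]
    · simp

theorem φ_apply (t : ℝ) (p : X) : φ t p = (shift t p.1, p.2 + (t : UnitAddCircle)) := rfl

theorem fixfree (x : X) : ∃ t : ℝ, φ t x ≠ x := by
  refine ⟨1 / 2, fun h => ?_⟩
  have h2 := congrArg Prod.snd h
  rw [φ_apply] at h2
  simp only [add_eq_left] at h2
  rw [AddCircle.coe_eq_zero_iff] at h2
  obtain ⟨n, hn⟩ := h2
  simp only [zsmul_eq_mul, mul_one] at hn
  have h3 : (2 * n : ℝ) = 1 := by linarith
  have h4 : (2 * n : ℤ) = 1 := by exact_mod_cast h3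
  omega

/-- constant functions -/
def const (c : ℝ) (hc : c ∈ Icc (0 : ℝ) 1) : LipSet := ⟨fun _ => c, fun _ => hc, fun x y => by simp⟩

/-- a trapezoid: `1` on `[-R, R]`, `0` outside of `[-R-1, R+1]` -/
noncomputable def bump (R x : ℝ) : ℝ := max 0 (min 1 (R + 1 - |x|))

theorem bump_one {R x : ℝ} (h : |x| ≤ R) : bump R x = 1 := by
  unfold bump
  rw [min_eq_left (by linarith), max_eq_right (by norm_num)]

theorem bump_zero {R x : ℝ} (h : R + 1 ≤ |x|) : bump R x = 0 := by
  unfold bump
  rw [max_eq_left]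
  exact (min_le_right _ _).trans (by linarith)

theorem bump_nonneg (R x : ℝ) : 0 ≤ bump R x := le_max_left _ _

theorem bump_le (R x : ℝ) : bump R x ≤ 1 := max_le (by norm_num) (min_le_left _ _)

theorem bump_lip (R x y : ℝ) : |bump R x - bump R y| ≤ |x - y| := by
  unfold bump
  have h1 := abs_max_sub_max_le_max (0 : ℝ) (min 1 (R + 1 - |x|)) 0 (min 1 (R + 1 - |y|))
  have h2 := abs_min_sub_min_le_max (1 : ℝ) (R + 1 - |x|) 1 (R + 1 - |y|)
  have h3 : |R + 1 - |x| - (R + 1 - |y|)| ≤ |x - y| := by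
    have e : R + 1 - |x| - (R + 1 - |y|) = |y| - |x| := by ring
    rw [e, abs_sub_comm x y]
    exact abs_abs_sub_abs_le _ _
  simp only [sub_self, abs_zero] at h1 h2
  refine h1.trans (max_le (abs_nonneg _) (h2.trans (max_le (abs_nonneg _) h3)))

/-- clamping to the unit interval -/
def cl (t : ℝ) : ℝ := max 0 (min 1 t)

theorem cl_mem (t : ℝ) : cl t ∈ Icc (0 : ℝ) 1 :=
  ⟨le_max_left _ _, max_le (by norm_num) (min_le_left _ _)⟩

theorem cl_of_mem {t : ℝ} (h0 : 0 ≤ t) (h1 : t ≤ 1) : cl t = t := by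
  unfold cl
  rw [min_eq_right h1, max_eq_right h0]

theorem cl_cont : Continuous cl := by unfold cl; fun_prop

/-- a function with plateaus of prescribed heights -/
noncomputable def fc {k : ℕ} (R B : ℝ) (c : Fin (k + 1) → ℝ) (x : ℝ) : ℝ :=
  Finset.univ.sup' Finset.univ_nonempty fun i : Fin (k + 1) => cl (c i) * bump R (x - B * i)

theorem fc_mem {k : ℕ} (R B : ℝ) (c : Fin (k + 1) → ℝ) : fc R B c ∈ LipSet := by
  have hle : ∀ (x : ℝ) (i : Fin (k + 1)), cl (c i) * bump R (x - B * i) ≤ fc R B c x := fun x i =>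
    Finset.le_sup' (fun i : Fin (k + 1) => cl (c i) * bump R (x - B * i)) (Finset.mem_univ i)
  have key : ∀ x y, fc R B c x ≤ fc R B c y + |x - y| := by
    intro x y
    refine Finset.sup'_le _ _ fun i _ => ?_
    have h1 := hle y i
    have h2 := bump_lip R (x - B * i) (y - B * i)
    rw [sub_sub_sub_cancel_right] at h2
    have h3 := (abs_le.1 h2).2
    have h4 := (cl_mem (c i)).1
    have h5 := (cl_mem (c i)).2
    have h6 : cl (c i) * (bump R (x - B * i) - bump R (y - B * i)) ≤ |x - y| := by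
      calc cl (c i) * (bump R (x - B * i) - bump R (y - B * i)) ≤ cl (c i) * |x - y| :=
            mul_le_mul_of_nonneg_left h3 h4
        _ ≤ 1 * |x - y| := mul_le_mul_of_nonneg_right h5 (abs_nonneg _)
        _ = |x - y| := one_mul _
    nlinarith
  refine ⟨fun x => ⟨?_, ?_⟩, fun x y => ?_⟩
  · exact le_trans (mul_nonneg (cl_mem _).1 (bump_nonneg _ _)) (hle x 0)
  · refine Finset.sup'_le _ _ fun i _ => ?_
    exact mul_le_one₀ (cl_mem _).2 (bump_nonneg _ _) (bump_le _ _)
  · rw [abs_le]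
    have h1 := key x y
    have h2 := key y x
    rw [abs_sub_comm y x] at h2
    constructor <;> linarith

/-- the map from parameters to functions -/
noncomputable def Fc {k : ℕ} (R B : ℝ) (c : Fin (k + 1) → ℝ) : LipSet := ⟨fc R B c, fc_mem R B c⟩

theorem Fc_cont {k : ℕ} (R B : ℝ) : Continuous (Fc R B : (Fin (k + 1) → ℝ) → LipSet) := by
  refine Continuous.subtype_mk (continuous_pi fun x => ?_) _
  unfold fc
  refine Continuous.finset_sup'_apply _ fun i _ => ?_
  exact (cl_cont.comp (continuous_apply i)).mul continuous_const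

theorem fc_plateau {k : ℕ} {R B : ℝ} (hB : 2 * R + 1 ≤ B) (hR : 0 ≤ R) (c : Fin (k + 1) → ℝ)
    (i : Fin (k + 1)) (x : ℝ) (hx : |x| ≤ R) : fc R B c (x + B * i) = cl (c i) := by
  refine le_antisymm (Finset.sup'_le _ _ fun j _ => ?_) ?_
  · rcases eq_or_ne j i with rfl | hij
    · rw [add_sub_cancel_right, bump_one hx, mul_one]
    · rw [bump_zero, mul_zero]
      · exact (cl_mem _).1
      · have h1 : (1 : ℝ) ≤ |((i : ℕ) : ℝ) - ((j : ℕ) : ℝ)| := by
          have h2 : ((i : ℕ) : ℤ) - ((j : ℕ) : ℤ) ≠ 0 := by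
            intro h
            exact hij (Fin.ext (by omega))
          have h3 := Int.one_le_abs h2
          exact_mod_cast h3
        have e : x + B * (i : ℕ) - B * (j : ℕ) = B * (((i : ℕ) : ℝ) - ((j : ℕ) : ℝ)) + x := by ring
        rw [e]
        have h4 : |B * (((i : ℕ) : ℝ) - ((j : ℕ) : ℝ))| - |x| ≤
            |B * (((i : ℕ) : ℝ) - ((j : ℕ) : ℝ)) + x| := by
          have := abs_sub_abs_le_abs_sub (B * (((i : ℕ) : ℝ) - ((j : ℕ) : ℝ))) (-x)
          rwa [abs_neg, sub_neg_eq_add] at this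
        have h5 : B ≤ |B * (((i : ℕ) : ℝ) - ((j : ℕ) : ℝ))| := by
          rw [abs_mul, abs_of_nonneg (by linarith : (0 : ℝ) ≤ B)]
          nlinarith
        linarith
  · have := Finset.le_sup' (fun j : Fin (k + 1) => cl (c j) * bump R (x + B * i - B * j))
      (Finset.mem_univ i)
    simp only [add_sub_cancel_right, bump_one hx, mul_one] at this
    exact this

/-- functions that are constant on large intervals are close to constants -/
theorem near_const (h : X → ℝ) (hh : Continuous h) (c : ℝ) (hc : c ∈ Icc (0 : ℝ) 1) :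
    ∃ R : ℕ, ∀ f : LipSet, (∀ x : ℝ, |x| ≤ (R : ℝ) → f.1 x = c) →
      |h (f, 0) - h (const c hc, 0)| < 1 / 4 := by
  by_contra hcon
  push Not at hcon
  choose f hf hf2 using hcon
  have h1 : Tendsto f atTop (𝓝 (const c hc)) := by
    rw [tendsto_subtype_rng, tendsto_pi_nhds]
    intro x
    refine tendsto_const_nhds.congr' ?_
    filter_upwards [eventually_ge_atTop ⌈|x|⌉₊] with n hn
    have h2 : |x| ≤ n := (Nat.le_ceil _).trans (by exact_mod_cast hn)
    exact (hf n x h2).symm
  have h2 : Tendsto (fun n => h (f n, 0)) atTop (𝓝 (h (const c hc, 0))) :=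
    (hh.tendsto _).comp (h1.prodMk_nhds tendsto_const_nhds)
  have h3 : Tendsto (fun n => |h (f n, 0) - h (const c hc, 0)|) atTop (𝓝 0) := by
    have := (h2.sub_const (h (const c hc, 0))).abs
    simpa using this
  have h4 := (h3.eventually (gt_mem_nhds (show (0 : ℝ) < 1 / 4 by norm_num))).exists
  obtain ⟨n, hn⟩ := h4
  exact absurd hn (not_lt.2 (hf2 n))

theorem zero_mem : (0 : ℝ) ∈ Icc (0 : ℝ) 1 := ⟨le_rfl, zero_le_one⟩
theorem one_mem : (1 : ℝ) ∈ Icc (0 : ℝ) 1 := ⟨zero_le_one, le_rfl⟩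

/-- prescribed values along an orbit -/
theorem surj (h : X → ℝ) (hh : Continuous h) (h0 : h (const 0 zero_mem, 0) = 0)
    (h1 : h (const 1 one_mem, 0) = 1) : ∃ B : ℕ, 0 < B ∧ ∀ (k : ℕ) (v : Fin (k + 1) → ℝ),
      (∀ i, v i ∈ Icc (1 / 4 : ℝ) (3 / 4)) → ∃ p : X, ∀ i : Fin (k + 1),
        h (φ ((B * i : ℕ) : ℝ) p) = v i := by
  obtain ⟨R0, hR0⟩ := near_const h hh 0 zero_mem
  obtain ⟨R1, hR1⟩ := near_const h hh 1 one_mem
  set R : ℕ := max R0 R1 with hR
  refine ⟨2 * R + 1, by omega, fun k v hv => ?_⟩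
  have hB : 2 * (R : ℝ) + 1 ≤ ((2 * R + 1 : ℕ) : ℝ) := by push_cast; exact le_rfl
  set B : ℕ := 2 * R + 1 with hBdef
  let Φ : (Fin (k + 1) → ℝ) → (Fin (k + 1) → ℝ) := fun c i =>
    h (φ ((B * i : ℕ) : ℝ) (Fc (R : ℝ) (B : ℝ) c, 0))
  have hΦ : Continuous Φ := by
    refine continuous_pi fun i => hh.comp ?_
    exact (φ.continuous continuous_const ((Fc_cont _ _).prodMk continuous_const))
  have hpt : ∀ (c : Fin (k + 1) → ℝ) (i : Fin (k + 1)),
      φ ((B * i : ℕ) : ℝ) (Fc (R : ℝ) (B : ℝ) c, 0) =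
        (shift ((B * i : ℕ) : ℝ) (Fc (R : ℝ) (B : ℝ) c), 0) := by
    intro c i
    rw [φ_apply]
    refine Prod.ext rfl ?_
    simp only [zero_add]
    rw [AddCircle.coe_eq_zero_iff]
    exact ⟨((B * i : ℕ) : ℤ), by simp⟩
  have hval : ∀ (c : Fin (k + 1) → ℝ) (i : Fin (k + 1)) (x : ℝ), |x| ≤ R →
      (shift ((B * i : ℕ) : ℝ) (Fc (R : ℝ) (B : ℝ) c)).1 x = cl (c i) := by
    intro c i x hx
    have := fc_plateau hB (Nat.cast_nonneg R) c i x hx
    rw [← this]
    show fc (R : ℝ) (B : ℝ) c (x + ((B * i : ℕ) : ℝ)) = _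
    push_cast
    rfl
  obtain ⟨c, -, hc⟩ := Pool.Agent.Helper475.Miranda.poincare_miranda (k + 1)
    (fun c => Φ c - v) (hΦ.sub continuous_const).continuousOn (by
      intro c _ i hi
      simp only [Pi.sub_apply]
      have h2 := hR0 (shift ((B * i : ℕ) : ℝ) (Fc (R : ℝ) (B : ℝ) c)) (fun x hx => by
        rw [hval c i x (hx.trans (by exact_mod_cast le_max_left _ _)), hi]
        exact cl_of_mem le_rfl zero_le_one)
      rw [← hpt, h0, sub_zero] at h2
      have h3 := (abs_lt.1 h2).2
      have h4 := (hv i).1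
      show h _ - v i ≤ 0
      linarith) (by
      intro c _ i hi
      simp only [Pi.sub_apply]
      have h2 := hR1 (shift ((B * i : ℕ) : ℝ) (Fc (R : ℝ) (B : ℝ) c)) (fun x hx => by
        rw [hval c i x (hx.trans (by exact_mod_cast le_max_right _ _)), hi]
        exact cl_of_mem zero_le_one le_rfl)
      rw [← hpt, h1] at h2
      have h3 := (abs_lt.1 h2).1
      have h4 := (hv i).2
      show 0 ≤ h _ - v i
      linarith)
  refine ⟨(Fc (R : ℝ) (B : ℝ) c, 0), fun i => ?_⟩
  have := congrFun hc i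
  simp only [Pi.sub_apply, Pi.zero_apply] at this
  exact sub_eq_zero.1 this


/-- many values along orbits force infinite entropy -/
theorem entropy_top {Y : Type*} [MetricSpace Y] [CompactSpace Y] (T : Y → Y) (g : Y → ℝ)
    (hg : Continuous g) (B : ℕ) (hB : 0 < B)
    (hv : ∀ (k : ℕ) (v : Fin (k + 1) → ℝ), (∀ i, v i ∈ Icc (1 / 4 : ℝ) (3 / 4)) →
      ∃ y : Y, ∀ i : Fin (k + 1), g (T^[B * i] y) = v i) :
    coverEntropy T (univ : Set Y) = ⊤ := by
  classical
  rw [EReal.eq_top_iff_forall_lt]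
  intro M
  refine lt_of_lt_of_le (b := ((M + 1 : ℝ) : EReal)) (by exact_mod_cast lt_add_one M) ?_
  obtain ⟨m, hm⟩ := exists_nat_ge (Real.exp ((M + 1) * B))
  have hm0 : 0 < m := by
    have : (0 : ℝ) < m := (Real.exp_pos _).trans_le hm
    exact_mod_cast this
  have hm0' : (0 : ℝ) < m := by exact_mod_cast hm0
  -- the entourage
  obtain ⟨ε, hε⟩ : ∃ ε : ℝ, ε = 1 / (4 * m) := ⟨_, rfl⟩
  have hε0 : 0 < ε := by rw [hε]; positivity
  have huc : UniformContinuous g := CompactSpace.uniformContinuous_of_continuous hg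
  set U : SetRel Y Y := {p : Y × Y | |g p.1 - g p.2| < ε} with hU
  have hUm : U ∈ uniformity Y := by
    have := huc (Metric.dist_mem_uniformity hε0)
    refine Filter.mem_of_superset this ?_
    rintro ⟨a, b⟩ hab
    simpa [hU, Real.dist_eq] using hab
  refine le_trans ?_ (netEntropyEntourage_le_coverEntropy T univ hUm)
  refine Frequently.le_expGrowthSup ?_
  -- the points
  have hval : ∀ (k : ℕ) (a : Fin (k + 1) → Fin m), ∃ y : Y, ∀ i : Fin (k + 1),
      g (T^[B * i] y) = 1 / 4 + (a i : ℕ) / (2 * m) := by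
    intro k a
    refine hv k _ fun i => ⟨?_, ?_⟩
    · have : (0 : ℝ) ≤ (a i : ℕ) / (2 * m) := by positivity
      linarith
    · have h1 : ((a i : ℕ) : ℝ) ≤ m := by exact_mod_cast (a i).2.le
      have : ((a i : ℕ) : ℝ) / (2 * m) ≤ 1 / 2 := by
        rw [div_le_div_iff₀ (by positivity) (by norm_num)]
        linarith
      linarith
  choose y hy using hval
  have hsep : ∀ (k : ℕ) (a b : Fin (k + 1) → Fin m) (z : Y), 
      z ∈ UniformSpace.ball (y k a) (dynEntourage T U (B * (k + 1))) →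
      z ∈ UniformSpace.ball (y k b) (dynEntourage T U (B * (k + 1))) → a = b := by
    intro k a b z hza hzb
    funext i
    have hi : B * (i : ℕ) < B * (k + 1) := Nat.mul_lt_mul_of_pos_left i.2 hB
    rw [mem_ball_dynEntourage] at hza hzb
    have h1 := hza _ hi
    have h2 := hzb _ hi
    simp only [UniformSpace.ball, Set.mem_preimage, hU, Set.mem_ofPred_eq, hy] at h1 h2
    have h3 : |((a i : ℕ) : ℝ) / (2 * m) - ((b i : ℕ) : ℝ) / (2 * m)| < 2 * ε := by
      have e : ((a i : ℕ) : ℝ) / (2 * m) - ((b i : ℕ) : ℝ) / (2 * m) =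
          (1 / 4 + ((a i : ℕ) : ℝ) / (2 * m) - g (T^[B * i] z)) -
          (1 / 4 + ((b i : ℕ) : ℝ) / (2 * m) - g (T^[B * i] z)) := by ring
      rw [e]
      refine lt_of_le_of_lt (abs_sub _ _) ?_
      linarith
    rw [← sub_div, abs_div, abs_of_pos (by positivity : (0 : ℝ) < 2 * m), div_lt_iff₀ (by positivity),
      hε] at h3
    have h4 : 2 * (1 / (4 * (m : ℝ))) * (2 * m) = 1 := by field_simp; norm_num
    rw [h4] at h3
    have h5 : |((a i : ℕ) : ℤ) - ((b i : ℕ) : ℤ)| < 1 := by exact_mod_cast h3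
    rw [Int.abs_lt_one_iff] at h5
    exact Fin.ext (by omega)
  have hbd : ∀ k : ℕ, ((m : ENNReal) ^ (k + 1)) ≤ netMaxcard T univ U (B * (k + 1)) := by
    intro k
    have hinj : Function.Injective (y k) := by
      intro a b hab
      have hrefl : ∀ p : Y, p ∈ UniformSpace.ball p (dynEntourage T U (B * (k + 1))) := by
        intro p
        rw [mem_ball_dynEntourage]
        intro j _
        simp [UniformSpace.ball, hU, hε0]
      refine hsep k a b (y k a) (hrefl _) ?_
      rw [hab]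
      exact hrefl _
    let s : Finset Y := Finset.univ.image (y k)
    have hs : IsDynNetIn T univ U (B * (k + 1)) (s : Set Y) := by
      refine ⟨subset_univ _, ?_⟩
      intro p hp q hq hpq
      simp only [s, Finset.coe_image, Finset.coe_univ, image_univ, mem_range] at hp hq
      obtain ⟨a, rfl⟩ := hp
      obtain ⟨b, rfl⟩ := hq
      rw [Function.onFun, Set.disjoint_left]
      intro z hz1 hz2
      exact hpq (congrArg (y k) (hsep k a b z hz1 hz2))
    have h1 := hs.card_le_netMaxcard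
    have h2 : s.card = m ^ (k + 1) := by
      rw [Finset.card_image_of_injective _ hinj, Finset.card_univ, Fintype.card_fun,
        Fintype.card_fin, Fintype.card_fin]
    rw [h2] at h1
    have h3 := ENat.toENNReal_mono h1
    simpa using h3
  rw [Filter.frequently_atTop]
  intro N
  refine ⟨B * (N + 1), by nlinarith, ?_⟩
  refine le_trans ?_ (hbd N)
  have e1 : ((M + 1 : ℝ) : EReal) * ((B * (N + 1) : ℕ) : EReal) =
      (((M + 1) * B * (N + 1) : ℝ) : EReal) := by
    rw [← EReal.coe_coe_eq_natCast, ← EReal.coe_mul]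
    congr 1
    push_cast
    ring
  rw [e1, EReal.exp_coe]
  have h1 : Real.exp ((M + 1) * B * (N + 1)) ≤ (m : ℝ) ^ (N + 1) := by
    have : (M + 1) * B * (N + 1) = ((N + 1 : ℕ) : ℝ) * ((M + 1) * B) := by push_cast; ring
    rw [this, Real.exp_nat_mul]
    exact pow_le_pow_left₀ (Real.exp_pos _).le hm _
  calc ENNReal.ofReal (Real.exp ((M + 1) * B * (N + 1))) ≤ ENNReal.ofReal ((m : ℝ) ^ (N + 1)) :=
        ENNReal.ofReal_le_ofReal h1
    _ = (m : ENNReal) ^ (N + 1) := by
        rw [ENNReal.ofReal_pow (by positivity), ENNReal.ofReal_natCast]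

theorem flow_iter {Y : Type*} [TopologicalSpace Y] (ψ : Flow ℝ Y) (n : ℕ) (y : Y) :
    (ψ 1)^[n] y = ψ (n : ℝ) y := by
  induction n with
  | zero => simp
  | succ n ih =>
    rw [Function.iterate_succ_apply', ih, ← Flow.map_add]
    congr 1
    push_cast
    ring

/-- the main theorem -/
theorem main {Y : Type*} [MetricSpace Y] [CompactSpace Y] (ψ : Flow ℝ Y) (π : X → Y)
    (hπ : Continuous π) (heq : ∀ t x, π (φ t x) = ψ t (π x))
    (hne : π (const 0 zero_mem, 0) ≠ π (const 1 one_mem, 0)) :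
    coverEntropy (ψ 1) (univ : Set Y) = ⊤ := by
  set y0 := π (const 0 zero_mem, 0) with hy0
  set y1 := π (const 1 one_mem, 0) with hy1
  have hd : 0 < dist y1 y0 := dist_pos.2 (Ne.symm hne)
  let g : Y → ℝ := fun y => dist y y0 / dist y1 y0
  have hg : Continuous g := by fun_prop
  obtain ⟨B, hB, h⟩ := surj (fun x => g (π x)) (hg.comp hπ) (by simp [g, hy0])
    (by simp only [g]; rw [← hy1]; exact div_self hd.ne')
  refine entropy_top (ψ 1) g hg B hB fun k v hv => ?_
  obtain ⟨p, hp⟩ := h k v hv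
  refine ⟨π p, fun i => ?_⟩
  rw [flow_iter, ← heq]
  exact hp i

end Pool.Agent.N221.SEF
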